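import Pool.Agent.Helper33.KN.Cor

/-!
The generalized Tate conjecture for products of several varieties `w ^ (r ^ e) = f(x_1, …, x_m)`: definitions.

`T` is the part of `H ^ m` of the variety on which the group of the `r ^ e`-th roots of unity acts by nontrivial characters, as
in `Pool.Agent.Helper33.KN.Defs`; `ι` is the set of the factors of the product.
-/

set_option autoImplicit false

open Matrix H77MT Pool.Agent.Helper79.KN Pool.Agent.Helper33.KN

namespace Pool.Agent.Helper73.KT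

variable {Γ X T n K ι : Type} [Group Γ] [Fintype n] [DecidableEq n] [Field K] [Fintype ι] [DecidableEq ι]

/-- The tensor product of the matrices `A a`. -/
def ten {R : Type} [CommRing R] (A : ι → Matrix n n R) (M : (ι → n) → R) : (ι → n) → R :=
  fun s => ∑ t : ι → n, (∏ a, A a (s a) (t a)) * M t

/-- The action of `γ` on the tensor power of `T` with the set of factors `ι`: `M i` is the component of `M` in the tensor
product of the eigenspaces for the characters `i a`. -/
def actTen (ρ : Rep Γ X n K) (m : ℕ) (c : Γ →* Kˣ) (γ : Γ) (M : (ι → X × Bool) → (ι → n) → K) :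
    (ι → X × Bool) → (ι → n) → K :=
  fun i => ten (fun a => act ρ m c γ (i a)) (M i)

/-- `P` is stable under a subgroup `Δ` of finite index, and the eigenvalues of the powers of the Frobenius element `γ₀` in `Δ`
on the twist `P(ν)` are algebraic integers. -/
def IsEff {U : Type} [AddCommGroup U] [Module K U] (A : Γ → U → U) (c : Γ →* Kˣ) (γ₀ : Γ) (ν : ℕ) (P : Submodule K U) :
    Prop :=
  ∃ Δ : Subgroup Γ, Δ.FiniteIndex ∧ (∀ γ ∈ Δ, ∀ u ∈ P, A γ u ∈ P) ∧
    ∀ k : ℕ, 0 < k → γ₀ ^ k ∈ Δ → ∀ u ∈ P, u ≠ 0 → ∀ z : K, A (γ₀ ^ k) u = z • u →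
      IsIntegral ℤ (z * ((c γ₀ : K) ^ (k * ν))⁻¹)

/-- The span of the products of the pairings of the factors `f j` and `g j`, for `q` disjoint pairs of factors with dual
eigenspaces, and a tensor on the other factors. -/
def pairs (K : Type) [Field K] (n : Type) [DecidableEq n] (i : ι → X × Bool) (q : ℕ) : Submodule K ((ι → n) → K) :=
  Submodule.span K {M | ∃ f g : Fin q → ι, Function.Injective (Sum.elim f g) ∧
    (∀ j, i (g j) = ((i (f j)).1, !(i (f j)).2)) ∧ ∃ N : (ι → n) → K,
      (∀ s t, (∀ a, (∀ j, a ≠ f j ∧ a ≠ g j) → s a = t a) → N s = N t) ∧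
      ∀ s, M s = if ∀ j, s (f j) = s (g j) then N s else 0}

/-- Subspaces of the tensor power which are effective after the twist by `ν` are contained in the span of the products of at
least `ν / m` pairings and tensors. -/
def Coniveau (ι : Type) [Fintype ι] [DecidableEq ι] (ρ : Rep Γ X n K) (h : T → X → ℤ → ℕ) (m : ℕ) : Prop :=
  ∀ (c : Γ →* Kˣ) (γ₀ : Γ), IsOrdinary ρ h m c γ₀ → ∀ (ν q : ℕ) (P : Submodule K ((ι → X × Bool) → (ι → n) → K)),
    q * m < ν + m → IsEff (actTen ρ m c) c γ₀ ν P → ∀ M ∈ P, ∀ i, M i ∈ pairs K n i q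

/-- Lines in the tensor power which are stable under a subgroup of finite index are spanned by products of pairings. -/
def Lines (ι : Type) [Fintype ι] [DecidableEq ι] (ρ : Rep Γ X n K) : Prop :=
  ∀ (m : ℕ) (c : Γ →* Kˣ) (Δ : Subgroup Γ), Δ.FiniteIndex → ∀ M : (ι → X × Bool) → (ι → n) → K,
    (∀ γ ∈ Δ, ∃ z : K, actTen ρ m c γ M = z • M) → ∀ q, 2 * q ≤ Fintype.card ι + 1 → ∀ i, M i ∈ pairs K n i q

/-- Any eigenspaces have as many holomorphic forms as we need at the same time. -/
def IsMeet (ι : Type) [Fintype ι] [DecidableEq X] (h : T → X → ℤ → ℕ) (m : ℕ) : Prop :=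
  ∀ i : ι → X × Bool, ∃ t, ∀ l : X × Bool, (Finset.univ.filter fun a => i a = l).card ≤ hzero h m t l

/-- `Coniveau` and `Lines` follow from `IsFull`. -/
def Cor : Prop :=
  ∀ (Γ X T n K ι : Type) [Group Γ] [Fintype X] [DecidableEq X] [Fintype n] [DecidableEq n] [Field K] [IsAlgClosed K]
    [CharZero K] [Fintype ι] [DecidableEq ι] (h : T → X → ℤ → ℕ) (m : ℕ) (ρ : Rep Γ X n K),
    IsFull ρ → (Fintype.card ι < Fintype.card n → Lines ι ρ) ∧
      (0 < m → Fintype.card ι ^ 2 < Fintype.card n → IsMeet ι h m → Coniveau ι ρ h m)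

/-- The numbers of `w ^ (r ^ e) = f(x_1, …, x_m)`. -/
def MeetSpec : Prop :=
  ∀ (m : ℕ) (a : Fin m → ℕ) (r e : ℕ) (ι : Type) [Fintype ι], r.Prime → 0 < e → 0 < m →
    (∀ j, 2 * m * Fintype.card ι ^ 2 < a j) →
    IsMeet ι (X := {u : ℕ // 0 < u ∧ 2 * u < r ^ e}) (T := {t : ℕ // Nat.Coprime t r})
      (fun t u q => spec a (r ^ e) (t.1 * u.1 % r ^ e) q) m

end Pool.Agent.Helper73.KT
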