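import Mathlib

/-!
# Sums of trace functions over finite fields modulo a prime

For a trace function `w` on `S = Spec A` the sum over the points over the extension of
degree `r` of a finite field is congruent modulo `r` to the `r`-th power of the sum over the
points over the field.
-/

open Module

namespace Pool.Agent.Helper73.KT

/-- The trace function of an `ℓ`-adic sheaf (or of a virtual one) with integral Frobenius
eigenvalues on `Spec A`: `w K P` is the trace of the Frobenius at the point `P` over the finite
field `K`. -/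
structure TraceFunction (k A L : Type) [Field k] [CommRing A] [Algebra k A] [Field L]
    (r : ℕ) where
  w : ∀ (K : Type) [Field K] [Algebra k K], (A →ₐ[k] K) → L
  integral : ∀ (K : Type) [Field K] [Algebra k K] (P : A →ₐ[k] K), IsIntegral ℤ (w K P)
  iso : ∀ (K K' : Type) [Field K] [Algebra k K] [Field K'] [Algebra k K'] (σ : K ≃ₐ[k] K')
    (P : A →ₐ[k] K), w K' ((σ : K →ₐ[k] K').comp P) = w K P
  /-- the trace of the `r`-th power is the `r`-th power of the trace modulo `r` -/
  power : ∀ (K K' : Type) [Field K] [Algebra k K] [Field K'] [Algebra k K'] (σ : K →ₐ[k] K')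
    (P : A →ₐ[k] K), 0 < finrank k K → finrank k K' = finrank k K * r →
      IsIntegral ℤ ((w K' (σ.comp P) - w K P ^ r) / r)

theorem finite_algHom {k A K : Type} [Field k] [CommRing A] [Algebra k A] [Algebra.FiniteType k A]
    [Field K] [Finite K] [Algebra k K] : Finite (A →ₐ[k] K) := by
  obtain ⟨s, hs⟩ := Algebra.FiniteType.out (R := k) (A := A)
  refine Finite.of_injective (fun (P : A →ₐ[k] K) => fun a : s => P a) ?_
  intro P Q h
  apply AlgHom.ext_of_adjoin_eq_top hs
  intro a ha
  exact congrFun h ⟨a, ha⟩

section orbits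

variable {r : ℕ} [Fact r.Prime] {G X κ : Type*} [Group G] [MulAction G X] [Finite X]
    [Field κ] [CharP κ r]

/-- a sum of an invariant function for a group of order a power of `r` is the sum over the
fixed points -/
theorem sum_fixed (hG : IsPGroup r G) (f : X → κ) (hf : ∀ (g : G) (x : X), f (g • x) = f x) :
    ∑ᶠ x, f x = ∑ᶠ x : MulAction.fixedPoints G X, f x := by
  classical
  have := Fintype.ofFinite X
  have := Fintype.ofFinite (MulAction.fixedPoints G X)
  rw [finsum_eq_sum_of_fintype, finsum_eq_sum_of_fintype]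
  have h1 : ∑ x, f x = ∑ v ∈ Finset.univ.image f,
      ((Finset.univ.filter fun x => f x = v).card : κ) * v := by
    rw [← Finset.sum_fiberwise_of_maps_to (g := f) (t := Finset.univ.image f)
      (fun x _ => Finset.mem_image_of_mem f (Finset.mem_univ x))]
    refine Finset.sum_congr rfl fun v _ => ?_
    rw [Finset.sum_congr rfl (fun x hx => (Finset.mem_filter.1 hx).2), Finset.sum_const,
      nsmul_eq_mul]
  have h2 : ∑ x : MulAction.fixedPoints G X, f x = ∑ v ∈ Finset.univ.image f,
      ((Finset.univ.filter fun x : MulAction.fixedPoints G X => f x = v).card : κ) * v := by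
    rw [← Finset.sum_fiberwise_of_maps_to
      (g := fun x : MulAction.fixedPoints G X => f x) (t := Finset.univ.image f)
      (fun x _ => Finset.mem_image_of_mem f (Finset.mem_univ (x : X)))]
    refine Finset.sum_congr rfl fun v _ => ?_
    rw [Finset.sum_congr rfl (fun x hx => (Finset.mem_filter.1 hx).2), Finset.sum_const,
      nsmul_eq_mul]
  rw [h1, h2]
  refine Finset.sum_congr rfl fun v _ => ?_
  congr 1
  -- the action on the level set
  let Y := {x : X // f x = v}
  let act : MulAction G Y :=
    { smul := fun g y => ⟨g • y.1, by rw [hf]; exact y.2⟩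
      one_smul := fun y => Subtype.ext (one_smul G y.1)
      mul_smul := fun g g' y => Subtype.ext (mul_smul g g' y.1) }
  have h3 := hG.card_modEq_card_fixedPoints Y
  have h4 : Nat.card Y = (Finset.univ.filter fun x => f x = v).card := by
    rw [Nat.card_eq_fintype_card, Fintype.card_subtype]
  have h5 : Nat.card (MulAction.fixedPoints G Y) =
      (Finset.univ.filter fun x : MulAction.fixedPoints G X => f x = v).card := by
    rw [← Fintype.card_subtype, ← Nat.card_eq_fintype_card]
    refine Nat.card_congr ⟨fun y => ⟨⟨y.1.1, fun g => congrArg Subtype.val (y.2 g)⟩, y.1.2⟩,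
      fun x => ⟨⟨x.1.1, x.2⟩, fun g => Subtype.ext (x.1.2 g)⟩, fun y => rfl, fun x => rfl⟩
  rw [← h4, ← h5]
  exact (CharP.natCast_eq_natCast κ r).2 h3

end orbits

/-- the action of the Galois group on the points -/
@[reducible] def galAction (k A K K' : Type) [Field k] [CommRing A] [Algebra k A] [Field K]
    [Algebra k K] [Field K'] [Algebra k K'] [Algebra K K'] [IsScalarTower k K K'] :
    MulAction (K' ≃ₐ[K] K') (A →ₐ[k] K') where
  smul σ P := ((σ.restrictScalars k : K' ≃ₐ[k] K') : K' →ₐ[k] K').comp P
  one_smul P := by ext a; rfl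
  mul_smul σ τ P := by ext a; rfl

section tower

variable {r : ℕ} [Fact r.Prime] {k A κ : Type} [Field k] [CommRing A] [Algebra k A]
    [Algebra.FiniteType k A] [Field κ] [CharP κ r]

theorem sum_tower {K K' : Type} [Field K] [Algebra k K] [Field K'] [Finite K']
    [Algebra k K'] [Algebra K K'] [IsScalarTower k K K'] (h : finrank K K' = r)
    (f' : (A →ₐ[k] K') → κ) (f : (A →ₐ[k] K) → κ)
    (hinv : ∀ (σ : K' ≃ₐ[k] K') (P : A →ₐ[k] K'), f' ((σ : K' →ₐ[k] K').comp P) = f' P)
    (hpow : ∀ P : A →ₐ[k] K, f' ((IsScalarTower.toAlgHom k K K').comp P) = f P ^ r) :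
    ∑ᶠ P, f' P = (∑ᶠ P, f P) ^ r := by
  have : Finite K := Finite.of_injective _ (algebraMap K K').injective
  have : Finite (A →ₐ[k] K') := finite_algHom
  have : Finite (A →ₐ[k] K) := finite_algHom
  let := galAction k A K K'
  have hG : IsPGroup r (K' ≃ₐ[K] K') := by
    apply IsPGroup.of_card (n := 1)
    rw [IsGalois.card_aut_eq_finrank, h, pow_one]
  rw [sum_fixed hG f' (fun σ P => hinv (σ.restrictScalars k) P)]
  let e : (A →ₐ[k] K) ≃ MulAction.fixedPoints (K' ≃ₐ[K] K') (A →ₐ[k] K') := by
    refine Equiv.ofBijective (fun P => ⟨(IsScalarTower.toAlgHom k K K').comp P, ?_⟩) ⟨?_, ?_⟩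
    · intro σ
      ext a
      exact σ.commutes (P a)
    · intro P Q hPQ
      ext a
      have := congrArg (fun R : MulAction.fixedPoints (K' ≃ₐ[K] K') (A →ₐ[k] K') => R.1 a) hPQ
      exact (algebraMap K K').injective this
    · rintro ⟨P, hP⟩
      have h1 : ∀ a, ∃ b : K, algebraMap K K' b = P a := by
        intro a
        have h2 : ∀ σ : K' ≃ₐ[K] K', σ (P a) = P a := by
          intro σ
          exact DFunLike.congr_fun (hP σ) a
        exact (IsGalois.mem_range_algebraMap_iff_fixed (P a)).2 h2
      choose g hg using h1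
      let Q : A →ₐ[k] K :=
        { toFun := g
          map_one' := (algebraMap K K').injective (by rw [hg, map_one, map_one])
          map_mul' := fun a b => (algebraMap K K').injective (by rw [hg, map_mul, map_mul, hg, hg])
          map_zero' := (algebraMap K K').injective (by rw [hg, map_zero, map_zero])
          map_add' := fun a b => (algebraMap K K').injective (by rw [hg, map_add, map_add, hg, hg])
          commutes' := fun c => (algebraMap K K').injective (by
            rw [hg, AlgHom.commutes, IsScalarTower.algebraMap_apply k K K']) }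
      refine ⟨Q, Subtype.ext (AlgHom.ext fun a => hg a)⟩
  have h3 : ∑ᶠ P : MulAction.fixedPoints (K' ≃ₐ[K] K') (A →ₐ[k] K'), f' P =
      ∑ᶠ P : A →ₐ[k] K, f' (e P) := (finsum_comp_equiv e).symm
  rw [h3]
  have := Fintype.ofFinite (A →ₐ[k] K)
  rw [finsum_eq_sum_of_fintype, finsum_eq_sum_of_fintype, sum_pow_char]
  exact Finset.sum_congr rfl fun P _ => hpow P

theorem sum_step [Finite k] {K K' : Type} [Field K] [Algebra k K] [Field K']
    [Algebra k K'] (hK : 0 < finrank k K) (h : finrank k K' = finrank k K * r)
    (f' : (A →ₐ[k] K') → κ) (f : (A →ₐ[k] K) → κ)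
    (hinv : ∀ (σ : K' ≃ₐ[k] K') (P : A →ₐ[k] K'), f' ((σ : K' →ₐ[k] K').comp P) = f' P)
    (hpow : ∀ (σ : K →ₐ[k] K') (P : A →ₐ[k] K), f' (σ.comp P) = f P ^ r) :
    ∑ᶠ P, f' P = (∑ᶠ P, f P) ^ r := by
  have hr : 0 < r := (Fact.out : r.Prime).pos
  have : Module.Finite k K := Module.finite_of_finrank_pos hK
  have : Module.Finite k K' := Module.finite_of_finrank_pos (by rw [h]; positivity)
  have : Finite K := Module.finite_of_finite k
  have : Finite K' := Module.finite_of_finite k
  obtain ⟨g⟩ := FiniteField.nonempty_algHom_of_finrank_dvd (F := k) (K := K) (L := K')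
    (by rw [h]; exact dvd_mul_right _ _)
  let : Algebra K K' := g.toRingHom.toAlgebra
  have : IsScalarTower k K K' := IsScalarTower.of_algebraMap_eq (fun x => (g.commutes x).symm)
  apply sum_tower (K := K) (K' := K')
  · have h2 := Module.finrank_mul_finrank k K K'
    rw [h] at h2
    exact Nat.eq_of_mul_eq_mul_left hK h2
  · exact hinv
  · intro P
    exact hpow _ P

/-- The sum over the points over a field of degree `j d r^s` is the power with exponent `r^s`
of the sum over the points over a field of degree `j d`. -/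
theorem sum_pow [Finite k] (f : ∀ (K : Type) [Field K] [Algebra k K], (A →ₐ[k] K) → κ)
    (hiso : ∀ (K K' : Type) [Field K] [Algebra k K] [Field K'] [Algebra k K'] (σ : K ≃ₐ[k] K')
      (P : A →ₐ[k] K), f K' ((σ : K →ₐ[k] K').comp P) = f K P)
    (hpow : ∀ (K K' : Type) [Field K] [Algebra k K] [Field K'] [Algebra k K'] (σ : K →ₐ[k] K')
      (P : A →ₐ[k] K), 0 < finrank k K → finrank k K' = finrank k K * r →
      f K' (σ.comp P) = f K P ^ r)
    {d : ℕ} (hd : 0 < d) {n : ℕ → κ}
    (hn : ∀ (K : Type) [Field K] [Algebra k K] (j : ℕ), 0 < j → finrank k K = j * d →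
      ∑ᶠ P, f K P = n j)
    (s j : ℕ) (hj : 0 < j) (K : Type) [Field K] [Algebra k K]
    (hK : finrank k K = j * (d * r ^ s)) : ∑ᶠ P, f K P = n j ^ r ^ s := by
  have hr : 0 < r := (Fact.out : r.Prime).pos
  induction s generalizing K with
  | zero =>
    rw [pow_zero, mul_one] at hK
    rw [hn K j hj hK, pow_zero, pow_one]
  | succ s ih =>
    obtain ⟨p, hp⟩ := CharP.exists k
    have : Fact p.Prime := ⟨CharP.char_is_prime k p⟩
    have : NeZero (j * (d * r ^ s)) := ⟨by positivity⟩
    have h1 := FiniteField.finrank_extension k p (j * (d * r ^ s))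
    have h2 : 0 < finrank k (FiniteField.Extension k p (j * (d * r ^ s))) := by
      rw [h1]; positivity
    have h3 : finrank k K = finrank k (FiniteField.Extension k p (j * (d * r ^ s))) * r := by
      rw [h1, hK, pow_succ]; ring
    rw [sum_step h2 h3 (f K) (f _) (fun σ P => hiso K K σ P) (fun σ P => hpow _ _ σ P h2 h3),
      ih _ h1, ← pow_mul, pow_succ]

end tower

end Pool.Agent.Helper73.KT
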