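import Pool.Agent.Helper73.KT.Glue
import Pool.Agent.Helper73.KT.Count

/-!
# The residual criterion for one character part
-/

open Module

namespace Pool.Agent.Helper73.KT

section det

variable {L κ : Type*} [Field L] [Field κ] {D : ℕ}

/-- a matrix of algebraic integers -/
def lift (Mx : Matrix (Fin D) (Fin D) L) (hM : ∀ a b, IsIntegral ℤ (Mx a b)) :
    Matrix (Fin D) (Fin D) (integralClosure ℤ L) :=
  Matrix.of fun a b => ⟨Mx a b, hM a b⟩

theorem coe_det_lift (Mx : Matrix (Fin D) (Fin D) L) (hM : ∀ a b, IsIntegral ℤ (Mx a b)) :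
    ((lift Mx hM).det : L) = Mx.det := by
  have h := RingHom.map_det (algebraMap (integralClosure ℤ L) L) (lift Mx hM)
  rw [RingHom.mapMatrix_apply] at h
  exact h

theorem map_det_lift (ψ : integralClosure ℤ L →+* κ) (Mx : Matrix (Fin D) (Fin D) L)
    (hM : ∀ a b, IsIntegral ℤ (Mx a b)) :
    ψ (lift Mx hM).det = (Matrix.of fun a b => res ψ (Mx a b)).det := by
  rw [RingHom.map_det, RingHom.mapMatrix_apply]
  congr 1
  ext a b
  rw [Matrix.map_apply, Matrix.of_apply, res_eq ψ (hM a b)]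
  rfl

theorem det_pow {r : ℕ} [Fact r.Prime] [CharP κ r] (Mx : Matrix (Fin D) (Fin D) κ) (s : ℕ) :
    (Matrix.of fun a b => Mx a b ^ r ^ s).det = Mx.det ^ r ^ s := by
  have h := RingHom.map_det (iterateFrobenius κ r s) Mx
  rw [RingHom.mapMatrix_apply, iterateFrobenius_def] at h
  rw [h]
  congr 1

end det

section part

variable {k A L W κ : Type} [Field k] [Finite k] [CommRing A] [Algebra k A]
    [Algebra.FiniteType k A] [Field L] [CharZero L] [IsAlgClosed L] [AddCommGroup W] [Module L W]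
    [FiniteDimensional L W] {r : ℕ} [Fact r.Prime] [Field κ] [CharP κ r]

omit [CharZero L] [IsAlgClosed L] [Fact r.Prime] in
theorem finite_points {K : Type} [Field K] [Algebra k K] (h : 0 < finrank k K) :
    Finite (A →ₐ[k] K) := by
  have : Module.Finite k K := Module.finite_of_finrank_pos h
  have : Finite K := Module.finite_of_finite k
  exact finite_algHom

omit [CharZero L] [IsAlgClosed L] [Fact r.Prime] in
theorem res_power (hr : (r : L) ≠ 0) (ψ : integralClosure ℤ L →+* κ) {x y : L}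
    (hy : IsIntegral ℤ y) (h : IsIntegral ℤ ((x - y ^ r) / r)) : res ψ x = res ψ y ^ r := by
  have h1 : x = y ^ r + r * ((x - y ^ r) / r) := by
    field_simp
    ring
  rw [h1, res_add ψ (hy.pow r) ((int_nat r).mul h), res_mul ψ (int_nat r) h, res_pow ψ hy,
    res_natCast, CharP.cast_eq_zero, zero_mul, add_zero]

theorem exists_field (k : Type) [Field k] [Finite k] {N : ℕ} (hN : 0 < N) :
    ∃ (K : Type) (_ : Field K) (_ : Algebra k K), finrank k K = N := by
  obtain ⟨p, hp⟩ := CharP.exists k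
  have : Fact p.Prime := ⟨CharP.char_is_prime k p⟩
  have : NeZero N := ⟨hN.ne'⟩
  exact ⟨FiniteField.Extension k p N, inferInstance, inferInstance,
    FiniteField.finrank_extension k p N⟩

omit [CharZero L] [IsAlgClosed L] [Fact r.Prime] in
theorem sum_integral {G : TraceFunction k A L r} {d : ℕ} (hd : 0 < d) {n : ℕ → L}
    (hn : ∀ (j : ℕ), 0 < j → ∀ (K : Type) [Field K] [Algebra k K], finrank k K = j * d →
      ∑ᶠ P, G.w K P = n j) {j : ℕ} (hj : 0 < j) : IsIntegral ℤ (n j) := by
  obtain ⟨K, _, _, hK⟩ := exists_field k (Nat.mul_pos hj hd)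
  have := finite_points (A := A) (K := K) (by rw [hK]; positivity)
  have := Fintype.ofFinite (A →ₐ[k] K)
  rw [← hn j hj K hK, finsum_eq_sum_of_fintype]
  exact IsIntegral.sum _ fun P _ => G.integral K P

/-- the power sums of the residual eigenvalues are the powers of the residual sums -/
theorem power_sums (ψ : integralClosure ℤ L →+* κ) {T : End L W}
    (hint : ∀ c ∈ eigs T, IsIntegral ℤ c) (G : TraceFunction k A L r) {d s e : ℕ} (hd : 0 < d)
    (hT : ∀ (j : ℕ), 0 < j → ∀ (K : Type) [Field K] [Algebra k K],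
      finrank k K = j * (d * r ^ s) → ∃ t : (A →ₐ[k] K) → L, (∀ P, t P ^ r ^ e = 1) ∧
        LinearMap.trace L W (T ^ j) = ∑ᶠ P, G.w K P * t P)
    {n : ℕ → L} (hn : ∀ (j : ℕ), 0 < j → ∀ (K : Type) [Field K] [Algebra k K],
      finrank k K = j * d → ∑ᶠ P, G.w K P = n j) {j : ℕ} (hj : 0 < j) :
    ∑ c ∈ eigs T, (mult T c : κ) * res ψ c ^ j = res ψ (n j) ^ r ^ s := by
  have hr : 0 < r := (Fact.out : r.Prime).pos
  have hrL : (r : L) ≠ 0 := Nat.cast_ne_zero.2 hr.ne'
  have hN : 0 < j * (d * r ^ s) := by positivity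
  obtain ⟨K, _, _, hK⟩ := exists_field k hN
  have := finite_points (A := A) (K := K) (by rw [hK]; exact hN)
  obtain ⟨t, ht, htr⟩ := hT j hj K hK
  rw [resid_trace ψ hint (G.w K) t (G.integral K) e ht htr]
  refine sum_pow (fun K _ _ P => res ψ (G.w K P)) (fun K K' _ _ _ _ σ P => by rw [G.iso])
    (fun K K' _ _ _ _ σ P h0 h => res_power hrL ψ (G.integral K P) (G.power K K' σ P h0 h)) hd
    (n := fun j => res ψ (n j)) ?_ s j hj K hK
  intro K _ _ j hj hK
  have := finite_points (A := A) (K := K) (by rw [hK]; positivity)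
  have := Fintype.ofFinite (A →ₐ[k] K)
  rw [← hn j hj K hK, finsum_eq_sum_of_fintype, finsum_eq_sum_of_fintype,
    res_sum ψ _ _ (fun P _ => G.integral K P)]

omit [IsAlgClosed L] in
/-- a residue field in which the Hankel determinant does not vanish -/
theorem exists_res {D : ℕ} {f : ℕ → L} (hf : ∀ j, 0 < j → IsIntegral ℤ (f j))
    (h : NotDvd r (hankelDet D f)) :
    ∃ (κ : Type) (_ : Field κ) (_ : CharP κ r) (ψ : integralClosure ℤ L →+* κ),
      ∀ s : ℕ, (Matrix.of fun a b : Fin D =>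
        res ψ (f ((a : ℕ) + (b : ℕ) + 1)) ^ r ^ s).det ≠ 0 := by
  have hMint : ∀ a b : Fin D, IsIntegral ℤ ((Matrix.of fun a b : Fin D =>
      f ((a : ℕ) + (b : ℕ) + 1)) a b) := fun a b => hf _ (by omega)
  have hNd : NotDvd r (((lift _ hMint).det : integralClosure ℤ L) : L) := by
    rw [coe_det_lift]; exact h
  obtain ⟨M, hM, hrM, hxM⟩ := exists_maximal hNd
  let : Field (integralClosure ℤ L ⧸ M) := Ideal.Quotient.field M
  have hch : CharP (integralClosure ℤ L ⧸ M) r := by
    rw [CharP.charP_iff_prime_eq_zero (Fact.out : r.Prime)]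
    have := Ideal.Quotient.eq_zero_iff_mem.2 hrM
    rwa [map_natCast] at this
  refine ⟨integralClosure ℤ L ⧸ M, this, hch, Ideal.Quotient.mk M, fun s => ?_⟩
  have h1 := det_pow (r := r) (Matrix.of fun a b : Fin D =>
    res (Ideal.Quotient.mk M) (f ((a : ℕ) + (b : ℕ) + 1))) s
  simp only [Matrix.of_apply] at h1
  rw [h1]
  apply pow_ne_zero
  have h2 := map_det_lift (Ideal.Quotient.mk M) _ hMint
  simp only [Matrix.of_apply] at h2
  rw [← h2]
  intro h3
  exact hxM (Ideal.Quotient.eq_zero_iff_mem.1 h3)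

end part

end Pool.Agent.Helper73.KT
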