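import Pool.Agent.Helper73.KT.Resid

/-!
# The residual criterion for one endomorphism
-/

open Module Polynomial

namespace Pool.Agent.Helper73.KT

section res

variable {L κ : Type*} [Field L] [Field κ] (M : integralClosure ℤ L →+* κ)

open Classical in
/-- the residue class of an algebraic integer -/
noncomputable def res (x : L) : κ :=
  if h : IsIntegral ℤ x then M ⟨x, h⟩ else 0

theorem int_nat (n : ℕ) : IsIntegral ℤ (n : L) := isIntegral_natCast n

theorem res_eq {x : L} (h : IsIntegral ℤ x) : res M x = M ⟨x, h⟩ := by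
  rw [res, dif_pos h]

theorem res_coe (y : integralClosure ℤ L) : res M (y : L) = M y := by
  rw [res_eq M y.2]

theorem res_add {x y : L} (hx : IsIntegral ℤ x) (hy : IsIntegral ℤ y) :
    res M (x + y) = res M x + res M y := by
  rw [res_eq M hx, res_eq M hy, res_eq M (hx.add hy), ← map_add]
  rfl

theorem res_mul {x y : L} (hx : IsIntegral ℤ x) (hy : IsIntegral ℤ y) :
    res M (x * y) = res M x * res M y := by
  rw [res_eq M hx, res_eq M hy, res_eq M (hx.mul hy), ← map_mul]
  rfl

theorem res_natCast (n : ℕ) : res M (n : L) = n := by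
  have h := res_coe M (n : integralClosure ℤ L)
  rw [map_natCast] at h
  simpa using h

theorem res_pow {x : L} (hx : IsIntegral ℤ x) (j : ℕ) : res M (x ^ j) = res M x ^ j := by
  rw [res_eq M hx, res_eq M (hx.pow j), ← map_pow]
  rfl

theorem res_sum {σ : Type*} (s : Finset σ) (f : σ → L) (hf : ∀ i ∈ s, IsIntegral ℤ (f i)) :
    res M (∑ i ∈ s, f i) = ∑ i ∈ s, res M (f i) := by
  classical
  revert hf
  induction s using Finset.induction_on with
  | empty =>
    intro _
    rw [Finset.sum_empty, Finset.sum_empty]
    simpa using res_natCast M 0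
  | insert a s ha ih =>
    intro hf
    have h1 : ∀ i ∈ s, IsIntegral ℤ (f i) := fun i hi => hf i (Finset.mem_insert_of_mem hi)
    have h2 : IsIntegral ℤ (∑ i ∈ s, f i) := IsIntegral.sum f h1
    rw [Finset.sum_insert ha, Finset.sum_insert ha,
      res_add M (hf a (Finset.mem_insert_self a s)) h2, ih h1]

end res

section mult

variable {L W : Type*} [Field L] [AddCommGroup W] [Module L W]

theorem mem_gen_of_sq {T : End L W} {a : L} {x : W} (h : (T - a • 1) ((T - a • 1) x) = 0) :
    x ∈ T.maxGenEigenspace a := by
  rw [End.mem_maxGenEigenspace]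
  exact ⟨2, by rw [pow_two, End.mul_apply]; exact h⟩

theorem mem_eigs_of_sq [FiniteDimensional L W] {T : End L W} {a : L} {x : W} (h : (T - a • 1) ((T - a • 1) x) = 0)
    (hx : x ≠ 0) : a ∈ eigs T := by
  rw [mem_eigs]
  intro h0
  have := mem_gen_of_sq h
  rw [h0, Submodule.mem_bot] at this
  exact hx this

theorem eigenspace_le (T : End L W) (a : L) : T.eigenspace a ≤ T.maxGenEigenspace a := by
  intro w hw
  rw [End.mem_maxGenEigenspace]
  refine ⟨1, ?_⟩
  rw [pow_one, LinearMap.sub_apply, LinearMap.smul_apply, End.one_apply,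
    End.mem_eigenspace_iff.1 hw, sub_self]

/-- generalised eigenvectors in a one-dimensional generalised eigenspace are eigenvectors -/
theorem eigenvector_of_mult [FiniteDimensional L W] {T : End L W} {a : L} (h : mult T a ≤ 1) {x : W}
    (hx : x ∈ T.maxGenEigenspace a) : T x = a • x := by
  by_cases h0 : T.eigenspace a = ⊥
  · have h1 : T.maxGenEigenspace a = ⊥ := by
      by_contra h1
      have h2 : T.HasUnifEigenvalue a ⊤ := h1
      have h3 : T.HasEigenvalue a := h2.lt (by norm_num)
      exact h3 h0
    rw [h1, Submodule.mem_bot] at hx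
    rw [hx, map_zero, smul_zero]
  · have h1 : T.eigenspace a = T.maxGenEigenspace a := by
      refine Submodule.eq_of_le_of_finrank_le (eigenspace_le T a) (le_trans h ?_)
      rw [Nat.one_le_iff_ne_zero]
      intro h2
      exact h0 (Submodule.finrank_eq_zero.1 h2)
    rw [← h1] at hx
    exact End.mem_eigenspace_iff.1 hx

theorem semis_of_mult [FiniteDimensional L W] {T : End L W} {a : L} (h : mult T a ≤ 1) {x : W}
    (hx : (T - a • 1) ((T - a • 1) x) = 0) : (T - a • 1) x = 0 := by
  rw [LinearMap.sub_apply, LinearMap.smul_apply, End.one_apply,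
    eigenvector_of_mult h (mem_gen_of_sq hx), sub_self]

theorem mult_zero_of_notMem [FiniteDimensional L W] {T : End L W} {a : L} (h : a ∉ eigs T) : mult T a = 0 := by
  rw [mem_eigs, not_not] at h
  rw [mult, h, finrank_bot]

/-- if a Jordan block of size at least two exists then the generalised eigenspace is
not one-dimensional -/
theorem two_le_mult [FiniteDimensional L W] {T : End L W} {a : L} {x : W} (hx : (T - a • 1) ((T - a • 1) x) = 0)
    (hv : (T - a • 1) x ≠ 0) : 2 ≤ mult T a := by
  by_contra h
  exact hv (semis_of_mult (by omega) hx)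

end mult

section core

variable {L W κ : Type*} [Field L] [CharZero L] [IsAlgClosed L] [AddCommGroup W] [Module L W]
    [FiniteDimensional L W] [Field κ] {r : ℕ} [Fact r.Prime] [CharP κ r]
    (M : integralClosure ℤ L →+* κ)

omit [CharZero L] in
/-- the power sums of the residual eigenvalues -/
theorem resid_trace {T : End L W} (hint : ∀ c ∈ eigs T, IsIntegral ℤ c) {X : Type*} [Finite X]
    (w t : X → L) (hw : ∀ P, IsIntegral ℤ (w P)) (e : ℕ) (ht : ∀ P, t P ^ r ^ e = 1) {j : ℕ}
    (h : LinearMap.trace L W (T ^ j) = ∑ᶠ P, w P * t P) :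
    ∑ c ∈ eigs T, (mult T c : κ) * res M c ^ j = ∑ᶠ P, res M (w P) := by
  have := Fintype.ofFinite X
  have hti : ∀ P, IsIntegral ℤ (t P) := by
    intro P
    have h1 : IsIntegral ℤ (t P ^ r ^ e) := by rw [ht P]; exact isIntegral_one
    exact h1.of_pow (pow_pos (Fact.out : r.Prime).pos e)
  have htr : ∀ P, res M (t P) = 1 := by
    intro P
    apply eq_one_of_pow (r := r) (e := e)
    rw [← res_pow M (hti P), ht P]
    have := res_natCast M 1
    simpa using this
  rw [trace_pow, finsum_eq_sum_of_fintype] at h
  have h2 := congrArg (res M) h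
  rw [res_sum M _ _ (fun c hc => (int_nat (mult T c)).mul ((hint c hc).pow j)),
    res_sum M _ _ (fun P _ => (hw P).mul (hti P))] at h2
  have h3 : ∑ P, res M (w P * t P) = ∑ P, res M (w P) :=
    Finset.sum_congr rfl (fun P _ => by rw [res_mul M (hw P) (hti P), htr P, mul_one])
  rw [finsum_eq_sum_of_fintype, ← h3, ← h2]
  refine Finset.sum_congr rfl fun c hc => ?_
  rw [res_mul M (int_nat (mult T c)) ((hint c hc).pow j), res_natCast,
    res_pow M (hint c hc)]

omit [Fact r.Prime] in
/-- (A): if the Hankel determinant of the power sums is not divisible by `r`, the generalised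
eigenspaces are one-dimensional -/
theorem core_A {T : End L W} {n : ℕ → κ}
    (hn : ∀ j, 0 < j → ∑ c ∈ eigs T, (mult T c : κ) * res M c ^ j = n j)
    {D : ℕ} (hdim : finrank L W ≤ D)
    (hdet : (Matrix.of fun i j : Fin D => n ((i : ℕ) + (j : ℕ) + 1)).det ≠ 0) :
    ∀ c, mult T c ≤ 1 := by
  classical
  have h1 : (Matrix.of fun i j : Fin D => ∑ c ∈ eigs T,
      ((mult T c : κ) * res M c) * res M c ^ ((i : ℕ) + (j : ℕ))).det ≠ 0 := by
    have h2 : (Matrix.of fun i j : Fin D => ∑ c ∈ eigs T,
        ((mult T c : κ) * res M c) * res M c ^ ((i : ℕ) + (j : ℕ))) =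
        (Matrix.of fun i j : Fin D => n ((i : ℕ) + (j : ℕ) + 1)) := by
      ext i j
      rw [Matrix.of_apply, Matrix.of_apply]
      have h3 := hn ((i : ℕ) + (j : ℕ) + 1) (by omega)
      rw [← h3]
      refine Finset.sum_congr rfl fun c _ => ?_
      rw [pow_succ]; ring
    rw [h2]
    exact hdet
  have h5 := hankel (eigs T) (fun c => (mult T c : κ) * res M c) (res M) D h1
  have h6 : D ≤ (eigs T).card :=
    h5.trans (Finset.card_image_le.trans (Finset.card_filter_le _ _))
  have h7 := sum_mult T
  intro c
  by_cases hc : c ∈ eigs T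
  · by_contra hcon
    have h8 : ∑ c ∈ eigs T, 1 < ∑ μ ∈ eigs T, mult T μ :=
      Finset.sum_lt_sum (fun μ hμ => one_le_mult hμ) ⟨c, hc, by omega⟩
    rw [← Finset.card_eq_sum_ones] at h8
    omega
  · rw [mult_zero_of_notMem hc]; omega

/-- (B): the case of a bilinear form with asymmetry `T / Q` -/
theorem core_B {T : End L W} {n : ℕ → κ}
    (hn : ∀ j, 0 < j → ∑ c ∈ eigs T, (mult T c : κ) * res M c ^ j = n j)
    {D : ℕ} (hdim : finrank L W ≤ D)
    (hdet : (Matrix.of fun i j : Fin (D - 1) =>
      n ((i : ℕ) + (j : ℕ) + 1) + n ((i : ℕ) + (j : ℕ) + 2)).det ≠ 0)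
    (hint : ∀ c ∈ eigs T, IsIntegral ℤ c) (hinj : Function.Injective T)
    (b : W →ₗ[L] W →ₗ[L] L) {Q : ℕ} (hQ0 : Q ≠ 0) (hQ : (Q : κ) = 1)
    (hb : ∀ x y, b (T x) y = (Q : L) * b y x)
    (hnd : ∀ v, (∀ w, b v w = 0) → v = 0)
    {a : L} {x : W} (hx : (T - a • 1) ((T - a • 1) x) = 0) : (T - a • 1) x = 0 := by
  classical
  by_contra hv
  have hx0 : x ≠ 0 := by
    rintro rfl
    exact hv (map_zero _)
  have ha : a ∈ eigs T := mem_eigs_of_sq hx hx0
  have hma : 2 ≤ mult T a := two_le_mult hx hv
  -- at least `D - 1` residual eigenvalues other than `0` and `-1`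
  have h1 : (Matrix.of fun i j : Fin (D - 1) => ∑ c ∈ eigs T,
      ((mult T c : κ) * res M c * (1 + res M c)) * res M c ^ ((i : ℕ) + (j : ℕ))).det ≠ 0 := by
    have h2 : (Matrix.of fun i j : Fin (D - 1) => ∑ c ∈ eigs T,
        ((mult T c : κ) * res M c * (1 + res M c)) * res M c ^ ((i : ℕ) + (j : ℕ))) =
        (Matrix.of fun i j : Fin (D - 1) => n ((i : ℕ) + (j : ℕ) + 1) +
          n ((i : ℕ) + (j : ℕ) + 2)) := by
      ext i j
      rw [Matrix.of_apply, Matrix.of_apply]
      have h3 := hn ((i : ℕ) + (j : ℕ) + 1) (by omega)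
      have h3' := hn ((i : ℕ) + (j : ℕ) + 2) (by omega)
      rw [← h3, ← h3', ← Finset.sum_add_distrib]
      refine Finset.sum_congr rfl fun c _ => ?_
      ring
    rw [h2]
    exact hdet
  have h5 := hankel (eigs T) (fun c => (mult T c : κ) * res M c * (1 + res M c)) (res M) (D - 1) h1
  set C' := (eigs T).filter (fun c => (mult T c : κ) * res M c * (1 + res M c) ≠ 0) with hC'
  have h6 : C'.card ≤ (eigs T).card := Finset.card_filter_le _ _
  have h7 := sum_mult T
  have h8 : ∑ c ∈ eigs T, 1 < ∑ μ ∈ eigs T, mult T μ :=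
    Finset.sum_lt_sum (fun μ hμ => one_le_mult hμ) ⟨a, ha, by omega⟩
  rw [← Finset.card_eq_sum_ones] at h8
  have h9 : (C'.image (res M)).card ≤ C'.card := Finset.card_image_le
  have h10 : C' = eigs T := Finset.eq_of_subset_of_card_le (Finset.filter_subset _ _) (by omega)
  have hcard : (eigs T).card = D - 1 := by omega
  have hfin : finrank L W = D := by omega
  -- multiplicities
  have hsplit : mult T a + ∑ μ ∈ (eigs T).erase a, mult T μ = D := by
    rw [Finset.add_sum_erase _ _ ha, h7, hfin]
  have hge : (eigs T).card - 1 ≤ ∑ μ ∈ (eigs T).erase a, mult T μ := by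
    rw [← Finset.card_erase_of_mem ha, Finset.card_eq_sum_ones]
    exact Finset.sum_le_sum fun μ hμ => one_le_mult (Finset.mem_of_mem_erase hμ)
  have hcpos : 0 < (eigs T).card := Finset.card_pos.2 ⟨a, ha⟩
  have hma2 : mult T a = 2 := by omega
  have hmc : ∀ c, c ≠ a → mult T c ≤ 1 := by
    intro c hca
    by_cases hc : c ∈ eigs T
    · by_contra hcon
      have h8' : ∑ c ∈ (eigs T).erase a, 1 < ∑ μ ∈ (eigs T).erase a, mult T μ :=
        Finset.sum_lt_sum (fun μ hμ => one_le_mult (Finset.mem_of_mem_erase hμ))
          ⟨c, Finset.mem_erase.2 ⟨hca, hc⟩, by omega⟩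
      rw [← Finset.card_eq_sum_ones, Finset.card_erase_of_mem ha] at h8'
      omega
    · rw [mult_zero_of_notMem hc]; omega
  have hresa : 1 + res M a ≠ 0 := by
    have h11 : a ∈ C' := by rw [h10]; exact ha
    have h12 := (Finset.mem_filter.1 h11).2
    intro h0
    rw [h0, mul_zero] at h12
    exact h12 rfl
  -- the vectors
  set v := (T - a • 1) x with hvdef
  have hTv : T v = a • v := by
    have := hx
    rw [LinearMap.sub_apply, LinearMap.smul_apply, End.one_apply, sub_eq_zero] at this
    exact this
  have hTx : T x = a • x + v := by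
    rw [hvdef, LinearMap.sub_apply, LinearMap.smul_apply, End.one_apply]; abel
  have hQL : (Q : L) ≠ 0 := Nat.cast_ne_zero.2 hQ0
  have hbb : ∀ y z, b (T y) (T z) = (Q : L) ^ 2 * b y z := by
    intro y z
    rw [hb, hb]; ring
  have ha0 : a ≠ 0 := by
    rintro rfl
    rw [zero_smul] at hTv
    exact hv (hinj (by rw [hTv, map_zero]))
  have hvv_vx : b v v = 0 ∧ b v x = 0 := by
    by_cases haQ : a ^ 2 = (Q : L) ^ 2
    · rcases sq_eq_sq_iff_eq_or_eq_neg.1 haQ with h | h
      · -- `a = Q`
        have e1 : b v x = b x v := by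
          have := hb v x
          rw [hTv, map_smul, LinearMap.smul_apply, smul_eq_mul, h] at this
          exact mul_left_cancel₀ hQL this
        have e2 : b v x = 0 := by
          have := hb x x
          rw [hTx, map_add, map_smul, LinearMap.add_apply, LinearMap.smul_apply, smul_eq_mul, h]
            at this
          exact add_eq_left.1 this
        have e3 : b v v = 0 := by
          have := hb x v
          rw [hTx, map_add, map_smul, LinearMap.add_apply, LinearMap.smul_apply, smul_eq_mul,
            ← e1, e2, mul_zero, mul_zero, zero_add] at this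
          exact this
        exact ⟨e3, e2⟩
      · exfalso
        apply hresa
        have h11 : a + Q = 0 := by rw [h]; ring
        have h12 := congrArg (res M) h11
        rw [res_add M (hint a ha) (int_nat Q), res_natCast, hQ] at h12
        have h13 : res M (0 : L) = 0 := by simpa using res_natCast M 0
        rw [h13] at h12
        rw [add_comm]; exact h12
    · have e1 : b v v = 0 := by
        have := hbb v v
        rw [hTv, map_smul, map_smul, LinearMap.smul_apply, smul_eq_mul, smul_eq_mul] at this
        have h11 : (a ^ 2 - (Q : L) ^ 2) * b v v = 0 := by linear_combination this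
        rcases mul_eq_zero.1 h11 with h | h
        · exact absurd (sub_eq_zero.1 h) haQ
        · exact h
      have e2 : b v x = 0 := by
        have := hbb v x
        rw [hTv, hTx] at this
        simp only [map_smul, map_add, LinearMap.smul_apply, smul_eq_mul, e1] at this
        have h11 : (a ^ 2 - (Q : L) ^ 2) * b v x = 0 := by linear_combination this
        rcases mul_eq_zero.1 h11 with h | h
        · exact absurd (sub_eq_zero.1 h) haQ
        · exact h
      exact ⟨e1, e2⟩
  obtain ⟨hvv, hvx⟩ := hvv_vx
  apply hv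
  apply hnd
  have htop : (⊤ : Submodule L W) ≤ LinearMap.ker (b v) := by
    rw [← End.iSup_maxGenEigenspace_eq_top T]
    refine iSup_le fun c => ?_
    by_cases hca : c = a
    · subst hca
      -- the generalised eigenspace of `a` is spanned by `x` and `v`
      set K := T.maxGenEigenspace c ⊓ LinearMap.ker (b v) with hK
      have hxK : x ∈ K := ⟨mem_gen_of_sq hx, hvx⟩
      have hvK : v ∈ K := ⟨eigenspace_le T c (End.mem_eigenspace_iff.2 hTv), hvv⟩
      have hlt : (L ∙ v) < K := by
        refine lt_of_le_of_ne (by rw [Submodule.span_singleton_le_iff_mem]; exact hvK) ?_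
        intro h
        rw [← h, Submodule.mem_span_singleton] at hxK
        obtain ⟨s, hs⟩ := hxK
        apply hv
        rw [hvdef, ← hs, map_smul, LinearMap.sub_apply, LinearMap.smul_apply, End.one_apply, hTv,
          sub_self, smul_zero]
      have h11 := Submodule.finrank_lt_finrank_of_lt hlt
      rw [finrank_span_singleton hv] at h11
      have h12 : K = T.maxGenEigenspace c :=
        Submodule.eq_of_le_of_finrank_le inf_le_left (by
          have : finrank L (T.maxGenEigenspace c) = 2 := hma2
          omega)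
      rw [← h12]
      exact inf_le_right
    · intro w hw
      have hTw : T w = c • w := eigenvector_of_mult (hmc c hca) hw
      rw [LinearMap.mem_ker]
      by_cases hw0 : w = 0
      · rw [hw0, map_zero]
      have hc0 : c ≠ 0 := by
        rintro rfl
        rw [zero_smul] at hTw
        exact hw0 (hinj (by rw [hTw, map_zero]))
      by_cases hac : a * c = (Q : L) ^ 2
      · have h11 := hbb x w
        rw [hTx, hTw, map_smul, map_add, map_smul, LinearMap.add_apply, LinearMap.smul_apply,
          smul_eq_mul, smul_eq_mul, ← hac] at h11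
        have h12 : c * b v w = 0 := by linear_combination h11
        exact (mul_eq_zero.1 h12).resolve_left hc0
      · have h11 := hbb v w
        rw [hTv, hTw, map_smul, map_smul, LinearMap.smul_apply, smul_eq_mul, smul_eq_mul] at h11
        have h12 : (a * c - (Q : L) ^ 2) * b v w = 0 := by linear_combination h11
        exact (mul_eq_zero.1 h12).resolve_left (sub_ne_zero.2 hac)
  intro w
  exact htop (Submodule.mem_top (x := w))

end core

end Pool.Agent.Helper73.KT
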