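import Pool.Agent.Helper73.KT.Core
import Pool.Agent.Helper13.Equiv.Blocks

/-!
# From the character parts to the whole space
-/

open Module Polynomial

namespace Pool.Agent.Helper73.KT

variable {L V : Type*} [Field L] [IsAlgClosed L] [AddCommGroup V] [Module L V]
    [FiniteDimensional L V]

theorem le_of_semisimple {f : End L V} {p : Submodule L V} (h : ∀ x ∈ p, f x ∈ p)
    (hs : End.IsSemisimple (f.restrict h)) : p ≤ ⨆ a, f.eigenspace a := by
  intro x hx
  have h1 := End.IsSemisimple.iSup_eigenspace_eq_top hs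
  have h2 : (⟨x, hx⟩ : p) ∈ ⨆ a, End.eigenspace (f.restrict h) a := by
    rw [h1]; exact Submodule.mem_top
  have h3 : ∀ y : p, y ∈ (⨆ a, End.eigenspace (f.restrict h) a) → (y : V) ∈ ⨆ a, f.eigenspace a := by
    intro y hy
    induction hy using Submodule.iSup_induction' with
    | mem a y hy =>
      refine Submodule.mem_iSup_of_mem a ?_
      rw [End.mem_eigenspace_iff] at hy ⊢
      exact congrArg Subtype.val hy
    | zero => exact Submodule.zero_mem _
    | add y z _ _ hy hz => exact Submodule.add_mem _ hy hz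
  exact h3 _ h2

theorem eigenspace_pow_le [CharZero L] {f : End L V} {m : ℕ} (hm : 0 < m) {c : L} (hc : c ≠ 0) :
    (f ^ m).eigenspace c ≤ ⨆ a, f.eigenspace a := by
  have hst : ∀ x ∈ (f ^ m).eigenspace c, f x ∈ (f ^ m).eigenspace c := by
    intro x hx
    rw [End.mem_eigenspace_iff] at hx ⊢
    have h1 : (f ^ m) (f x) = f ((f ^ m) x) := by
      rw [← End.mul_apply, ← End.mul_apply, ← pow_succ, pow_succ']
    rw [h1, hx, map_smul]
  apply le_of_semisimple hst
  have hsq : Squarefree (X ^ m - C c : L[X]) :=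
    (separable_X_pow_sub_C c (Nat.cast_ne_zero.2 hm.ne') hc).squarefree
  apply End.isSemisimple_of_squarefree_aeval_eq_zero hsq
  refine LinearMap.ext fun x => Subtype.ext ?_
  rw [map_sub, map_pow, aeval_X, aeval_C, LinearMap.sub_apply, Module.algebraMap_end_apply]
  have h2 : ∀ (j : ℕ) (y : (f ^ m).eigenspace c),
      (((f.restrict hst) ^ j) y : V) = (f ^ j) (y : V) := by
    intro j
    induction j with
    | zero => intro y; rfl
    | succ j ih =>
      intro y
      rw [pow_succ, End.mul_apply, ih, pow_succ, End.mul_apply]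
      rfl
  have h3 := h2 m x
  have h4 := End.mem_eigenspace_iff.1 x.2
  change (((f.restrict hst) ^ m) x : V) - c • (x : V) = 0
  rw [h3, h4, sub_self]

theorem le_of_restrict [CharZero L] {f : End L V} (hinj : Function.Injective f) {m : ℕ}
    (hm : 0 < m) {p : Submodule L V} (h : ∀ x ∈ p, (f ^ m) x ∈ p)
    (hs : ∀ (x : p) (a : L), ((f ^ m).restrict h - a • 1) (((f ^ m).restrict h - a • 1) x) = 0 →
      ((f ^ m).restrict h - a • 1) x = 0) : p ≤ ⨆ a, f.eigenspace a := by
  have hss : End.IsSemisimple ((f ^ m).restrict h) := by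
    apply Helper13.Equiv.semisimple_of_span (fun _ : Unit => (⊤ : Submodule L p))
    · intro _ x _; exact Submodule.mem_top
    · exact iSup_const
    · intro _ x _ a hx; exact hs x a hx
  refine (le_of_semisimple h hss).trans (iSup_le fun c => ?_)
  by_cases hc : c = 0
  · subst hc
    intro x hx
    rw [End.mem_eigenspace_iff, zero_smul] at hx
    have h1 : Function.Injective (f ^ m) := by
      rw [End.coe_pow]
      exact hinj.iterate m
    have h2 : x = 0 := h1 (by rw [hx, map_zero])
    rw [h2]
    exact Submodule.zero_mem _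
  · exact eigenspace_pow_le hm hc

theorem semisimple_of_iSup {f : End L V} (h : ⨆ a, f.eigenspace a = ⊤) : f.IsSemisimple := by
  apply Helper13.Equiv.semisimple_of_span (fun a : L => f.eigenspace a) _ h
  · intro b x hx a hxa
    rw [End.mem_eigenspace_iff] at hx
    have h1 : (f - a • 1 : End L V) x = (b - a) • x := by
      rw [LinearMap.sub_apply, LinearMap.smul_apply, End.one_apply, hx, sub_smul]
    rw [h1, map_smul, h1, smul_smul] at hxa
    rw [h1]
    rcases smul_eq_zero.1 hxa with h2 | h2
    · rw [mul_self_eq_zero] at h2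
      rw [h2, zero_smul]
    · rw [h2, smul_zero]
  · intro b x hx
    rw [End.mem_eigenspace_iff] at hx ⊢
    rw [hx, map_smul, hx]

/-- the eigenvalues of a power are powers of eigenvalues -/
theorem integral_pow {f : End L V} (hint : ∀ a : L, f.HasEigenvalue a → IsIntegral ℤ a)
    {m : ℕ} {c : L} {x : V} (hx : x ≠ 0) (hc : (f ^ m) x = c • x) : IsIntegral ℤ c := by
  have hst : ∀ x ∈ (f ^ m).eigenspace c, f x ∈ (f ^ m).eigenspace c := by
    intro x hx
    rw [End.mem_eigenspace_iff] at hx ⊢
    have h1 : (f ^ m) (f x) = f ((f ^ m) x) := by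
      rw [← End.mul_apply, ← End.mul_apply, ← pow_succ, pow_succ']
    rw [h1, hx, map_smul]
  have : Nontrivial ((f ^ m).eigenspace c) :=
    ⟨⟨⟨x, End.mem_eigenspace_iff.2 hc⟩, 0, fun h => hx (congrArg Subtype.val h)⟩⟩
  obtain ⟨a, ha⟩ := End.exists_eigenvalue (f.restrict hst)
  obtain ⟨y, hy⟩ := ha.exists_hasEigenvector
  have hy1 : f (y : V) = a • (y : V) := congrArg Subtype.val (End.mem_eigenspace_iff.1 hy.1)
  have hy0 : (y : V) ≠ 0 := fun h => hy.2 (Subtype.ext h)
  have h2 : ∀ j : ℕ, (f ^ j) (y : V) = a ^ j • (y : V) := by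
    intro j
    induction j with
    | zero => simp
    | succ j ih => rw [pow_succ', End.mul_apply, ih, map_smul, hy1, smul_smul, pow_succ]
  have h3 := End.mem_eigenspace_iff.1 y.2
  rw [h2 m] at h3
  have h4 : a ^ m = c := by
    have : (a ^ m - c) • (y : V) = 0 := by rw [sub_smul, h3, sub_self]
    rcases smul_eq_zero.1 this with h | h
    · exact sub_eq_zero.1 h
    · exact absurd h hy0
  rw [← h4]
  refine IsIntegral.pow (hint a ?_) m
  rw [End.hasEigenvalue_iff]
  intro hbot
  have : (y : V) ∈ f.eigenspace a := End.mem_eigenspace_iff.2 hy1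
  rw [hbot, Submodule.mem_bot] at this
  exact hy0 this

end Pool.Agent.Helper73.KT
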