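import Pool.Agent.Helper61.KT.B1
import Pool.Agent.Helper33.KT.Lines
import Pool.Agent.Helper21.KT.Block

/-!
`Coniveau` and `Lines` for all tensor powers.
-/

set_option autoImplicit false

open Matrix H77MT Pool.Agent.Helper79.KN Pool.Agent.Helper33.KN

namespace Pool.Agent.Helper73.KT

section

variable {Γ X n K ι : Type} [Group Γ] [Fintype n] [DecidableEq n] [Field K] [Fintype ι] [DecidableEq ι]

/-- the action on the tensor power as a linear map -/
def actTenL (ρ : Rep Γ X n K) (m : ℕ) (c : Γ →* Kˣ) (γ : Γ) :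
    ((ι → X × Bool) → (ι → n) → K) →ₗ[K] ((ι → X × Bool) → (ι → n) → K) where
  toFun := actTen ρ m c γ
  map_add' u v := by
    funext i
    exact (tenL fun a => act ρ m c γ (i a)).map_add (u i) (v i)
  map_smul' s u := by
    funext i
    exact (tenL fun a => act ρ m c γ (i a)).map_smul s (u i)

/-- eigenvalues of algebraic integers in a valuation ring -/
theorem val_le (O : ValuationSubring K) {z w : K} (hw : w ≠ 0) (h : IsIntegral ℤ (z * w⁻¹)) :
    O.valuation z ≤ O.valuation w := by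
  have h1 : z * w⁻¹ ∈ O := by
    have h2 : IsIntegral O (z * w⁻¹) := by
      obtain ⟨p, hp, hp0⟩ := h
      refine ⟨p.map (algebraMap ℤ O), hp.map _, ?_⟩
      rw [Polynomial.eval₂_map, ← hp0]
      congr 1
    obtain ⟨y, hy⟩ := IsIntegrallyClosed.isIntegral_iff.1 h2
    rw [← hy]
    exact y.2
  have h2 := (O.valuation_le_one_iff _).2 h1
  rw [map_mul, map_inv₀] at h2
  have h3 : O.valuation w ≠ 0 := (Valuation.ne_zero_iff _).2 hw
  calc O.valuation z = O.valuation z * (O.valuation w)⁻¹ * O.valuation w := by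
        rw [mul_assoc, inv_mul_cancel₀ h3, mul_one]
    _ ≤ 1 * O.valuation w := by gcongr
    _ = O.valuation w := one_mul _

end

/-- **`Coniveau` and `Lines`.** -/
theorem cor : Cor := by
  intro Γ X T n K ι _ _ _ _ _ _ _ _ _ _ h m ρ hfull
  refine ⟨fun hn => lines hn hfull, ?_⟩
  intro hm hn hmeet c γ₀ hord ν q P hq hP M hM i
  obtain ⟨t, ht⟩ := hmeet i
  obtain ⟨O, hO, hcount⟩ := hord t
  obtain ⟨Δ, hΔ, hst, hint⟩ := hP
  obtain ⟨k, hk, -, hkΔ⟩ := Subgroup.exists_pow_mem_of_index_ne_zero hΔ.index_ne_zero γ₀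
  have hR : Stab i (P.map (evTen i)) := block_stab hfull hΔ hst i
  have hstab : ∀ M ∈ P.map (evTen i), ten (fun a => act ρ m c (γ₀ ^ k) (i a)) M ∈ P.map (evTen i) := by
    rintro _ ⟨u, hu, rfl⟩
    exact ⟨actTen ρ m c (γ₀ ^ k) u, hst _ hkΔ u hu, rfl⟩
  refine block_le hn hm hO i ?_ hR hk hstab hq ?_ ⟨M, hM, rfl⟩
  · intro a
    rw [hcount (i a)]
    exact ht (i a)
  · intro v hv hv0 z hz
    obtain ⟨u, hu, hu0, hu1⟩ := eig_lift (evTen i) (actTenL ρ m c (γ₀ ^ k))
      (tenL fun a => act ρ m c (γ₀ ^ k) (i a)) (fun u => rfl) P (fun u hu => hst _ hkΔ u hu) hv hv0 (z := z) hz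
    have h1 := val_le O (pow_ne_zero _ (c γ₀).ne_zero) (hint k hk hkΔ u hu hu0 z hu1)
    rwa [map_pow] at h1

end Pool.Agent.Helper73.KT
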