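import Pool.Agent.Helper73.KT.Defs

/-!
Operators on the tensor product of eigenspaces: the Lie algebra, transpositions, contractions.
-/

set_option autoImplicit false

open Matrix H77MT Pool.Agent.Helper79.KN Pool.Agent.Helper33.KN

namespace Pool.Agent.Helper73.KT

variable {X n K ι : Type} [Fintype n] [DecidableEq n] [Field K] [Fintype ι] [DecidableEq ι]

/-- The matrix unit `E_cd` of the Lie algebra of the general linear group of the eigenspace for `x`, acting on the tensor
product with the labels `i`. -/
def lie [DecidableEq X] (i : ι → X × Bool) (x : X) (c d : n) : ((ι → n) → K) →ₗ[K] ((ι → n) → K) where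
  toFun M := fun s => ∑ a, if (i a).1 = x then
    (if (i a).2 then (if s a = c then M (Function.update s a d) else 0)
      else (if s a = d then -M (Function.update s a c) else 0)) else 0
  map_add' M N := by
    funext s
    simp only [Pi.add_apply, ← Finset.sum_add_distrib]
    refine Finset.sum_congr rfl fun a _ => ?_
    split_ifs <;> ring
  map_smul' z M := by
    funext s
    simp only [Pi.smul_apply, smul_eq_mul, RingHom.id_apply, Finset.mul_sum]
    refine Finset.sum_congr rfl fun a _ => ?_
    split_ifs <;> ring

/-- The transposition of two factors. -/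
def sw (a b : ι) : ((ι → n) → K) →ₗ[K] ((ι → n) → K) where
  toFun M := fun s => M (s ∘ Equiv.swap a b)
  map_add' M N := rfl
  map_smul' z M := rfl

/-- The product of the pairing of the factors `a` and `b` and the contraction. -/
def con (a b : ι) : ((ι → n) → K) →ₗ[K] ((ι → n) → K) where
  toFun M := fun s => if s a = s b then ∑ d, M (Function.update (Function.update s a d) b d) else 0
  map_add' M N := by
    funext s
    simp only [Pi.add_apply]
    split_ifs
    · rw [← Finset.sum_add_distrib]
    · simp
  map_smul' z M := by
    funext s
    simp only [Pi.smul_apply, smul_eq_mul, RingHom.id_apply]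
    split_ifs
    · rw [Finset.mul_sum]
    · simp

/-- The tensor product as a linear map. -/
def tenL (A : ι → Matrix n n K) : ((ι → n) → K) →ₗ[K] ((ι → n) → K) where
  toFun := ten A
  map_add' M N := by
    funext s
    simp only [ten, Pi.add_apply, mul_add, Finset.sum_add_distrib]
  map_smul' z M := by
    funext s
    simp only [ten, Pi.smul_apply, smul_eq_mul, RingHom.id_apply, Finset.mul_sum]
    exact Finset.sum_congr rfl fun t _ => by ring

/-- The number of the factors with the same label. -/
def mult [DecidableEq X] (i : ι → X × Bool) (a : ι) : ℕ := (Finset.univ.filter fun b => i b = i a).card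

/-- `R` is stable under the product of the special linear groups. -/
def Stab (i : ι → X × Bool) (R : Submodule K ((ι → n) → K)) : Prop :=
  ∀ A : X → Matrix n n K, (∀ x, (A x).det = 1) → ∀ M ∈ R, ten (fun a => pact (A (i a).1) (i a).2) M ∈ R

/-- The other factors. -/
abbrev Rest (a b : ι) : Type := {c : ι // c ≠ a ∧ c ≠ b}

/-- The contraction of the factors `a` and `b`. -/
def contr (a b : ι) : ((ι → n) → K) →ₗ[K] ((Rest a b → n) → K) where
  toFun M := fun s => ∑ d, M fun c => if h : c ≠ a ∧ c ≠ b then s ⟨c, h⟩ else d
  map_add' M N := by
    funext s
    simp only [Pi.add_apply, Finset.sum_add_distrib]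
  map_smul' z M := by
    funext s
    simp only [Pi.smul_apply, smul_eq_mul, RingHom.id_apply, Finset.mul_sum]

end Pool.Agent.Helper73.KT
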