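import Mathlib

/-!
# Residual eigenvalues and Hankel determinants
-/

open Module Polynomial

namespace Pool.Agent.Helper73.KT

section residue

/-- `r` divides no power of the algebraic integer `x` -/
def NotDvd {L : Type*} [Field L] (r : ℕ) (x : L) : Prop :=
  ∀ N : ℕ, ¬ IsIntegral ℤ (x ^ N / r)

/-- the Hankel determinant of the sequence `n 1, n 2, …` -/
def hankelDet {L : Type*} [Field L] (D : ℕ) (n : ℕ → L) : L :=
  (Matrix.of fun a b : Fin D => n ((a : ℕ) + (b : ℕ) + 1)).det

/-- if `r` divides no power of the algebraic integer `x` then some maximal ideal over `r` of the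
ring of algebraic integers does not contain `x` -/
theorem exists_maximal {L : Type*} [Field L] [CharZero L] {r : ℕ} [Fact r.Prime]
    {x : integralClosure ℤ L} (hx : NotDvd r (x : L)) :
    ∃ M : Ideal (integralClosure ℤ L), M.IsMaximal ∧ (r : integralClosure ℤ L) ∈ M ∧ x ∉ M := by
  have hr : r.Prime := Fact.out
  have h : x ∉ (Ideal.span {(r : integralClosure ℤ L)}).radical := by
    rintro ⟨N, hN⟩
    rw [Ideal.mem_span_singleton] at hN
    obtain ⟨y, hy⟩ := hN
    apply hx N
    have h1 : (x : L) ^ N = r * (y : L) := by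
      have := congrArg (fun z : integralClosure ℤ L => (z : L)) hy
      simpa using this
    have hr0 : (r : L) ≠ 0 := Nat.cast_ne_zero.2 hr.ne_zero
    rw [h1, mul_div_cancel_left₀ _ hr0]
    exact y.2
  rw [Ideal.radical_eq_sInf, Submodule.mem_sInf] at h
  push Not at h
  obtain ⟨P, ⟨hrP, hP⟩, hxP⟩ := h
  have hrP' : (r : integralClosure ℤ L) ∈ P := hrP (Ideal.subset_span rfl)
  refine ⟨P, ?_, hrP', hxP⟩
  apply Ideal.isMaximal_of_isIntegral_of_isMaximal_comap (R := ℤ)
  have h2 : Ideal.span {(r : ℤ)} ≤ Ideal.comap (algebraMap ℤ (integralClosure ℤ L)) P := by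
    rw [Ideal.span_singleton_le_iff_mem, Ideal.mem_comap]
    simpa using hrP'
  have h3 : (Ideal.span {(r : ℤ)}).IsMaximal :=
    PrincipalIdealRing.isMaximal_of_irreducible (Nat.prime_iff_prime_int.1 hr).irreducible
  have h4 : Ideal.comap (algebraMap ℤ (integralClosure ℤ L)) P ≠ ⊤ :=
    Ideal.comap_ne_top _ hP.ne_top
  rw [← h3.eq_of_le h4 h2]
  exact h3

/-- in characteristic `r`, the roots of unity of order a power of `r` are `1` -/
theorem eq_one_of_pow {κ : Type*} [Field κ] {r : ℕ} [Fact r.Prime] [CharP κ r] {x : κ} {e : ℕ}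
    (h : x ^ r ^ e = 1) : x = 1 := by
  have h1 : (x - 1) ^ r ^ e = 0 := by
    rw [sub_pow_char_pow, h, one_pow, sub_self]
  exact sub_eq_zero.1 (pow_eq_zero_iff (pow_pos (Fact.out : r.Prime).pos e).ne' |>.1 h1)

end residue

section hankel

theorem hankel {κ σ : Type*} [Field κ] [DecidableEq κ] (C : Finset σ) (w f : σ → κ) (D : ℕ)
    (h : (Matrix.of fun i j : Fin D => ∑ c ∈ C, w c * f c ^ ((i : ℕ) + (j : ℕ))).det ≠ 0) :
    D ≤ ((C.filter (fun c => w c ≠ 0)).image f).card := by
  set C' := C.filter (fun c => w c ≠ 0) with hC'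
  set R := C'.image f with hR
  let P : Matrix (Fin D) R κ := Matrix.of fun i ρ => (ρ : κ) ^ (i : ℕ)
  let Q : Matrix R (Fin D) κ := Matrix.of fun ρ j =>
    (∑ c ∈ C'.filter (fun c => f c = ρ), w c) * (ρ : κ) ^ (j : ℕ)
  have hPQ : (Matrix.of fun i j : Fin D => ∑ c ∈ C, w c * f c ^ ((i : ℕ) + (j : ℕ))) = P * Q := by
    ext i j
    rw [Matrix.mul_apply, Matrix.of_apply]
    have h1 : ∑ c ∈ C, w c * f c ^ ((i : ℕ) + (j : ℕ)) =
        ∑ c ∈ C', w c * f c ^ ((i : ℕ) + (j : ℕ)) := by
      rw [hC', Finset.sum_filter]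
      refine Finset.sum_congr rfl fun c _ => ?_
      split_ifs with hc
      · rfl
      · rw [not_not.1 hc, zero_mul]
    rw [h1, ← Finset.sum_fiberwise_of_maps_to (g := f) (t := R)
      (fun c hc => Finset.mem_image_of_mem f hc), ← Finset.sum_coe_sort R]
    refine Finset.sum_congr rfl fun ρ _ => ?_
    simp only [P, Q, Matrix.of_apply]
    rw [Finset.sum_mul, Finset.mul_sum]
    refine Finset.sum_congr rfl fun c hc => ?_
    rw [(Finset.mem_filter.1 hc).2, pow_add]
    ring
  rw [hPQ] at h
  have h2 : (P * Q).rank = D := by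
    rw [Matrix.rank_of_isUnit (P * Q) ((Matrix.isUnit_iff_isUnit_det _).2 (isUnit_iff_ne_zero.2 h)),
      Fintype.card_fin]
  have h3 : (P * Q).rank ≤ P.rank := Matrix.rank_mul_le_left P Q
  have h4 : P.rank ≤ Fintype.card R := Matrix.rank_le_card_width P
  rw [Fintype.card_coe] at h4
  omega

end hankel

section trace

variable {L W : Type*} [Field L] [AddCommGroup W] [Module L W]
    [FiniteDimensional L W]

theorem finite_gen (f : End L W) : {μ : L | f.maxGenEigenspace μ ≠ ⊥}.Finite :=
  WellFoundedGT.finite_ne_bot_of_iSupIndep f.independent_maxGenEigenspace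

/-- the finite set of eigenvalues -/
noncomputable def eigs (f : End L W) : Finset L := (finite_gen f).toFinset

theorem mem_eigs {f : End L W} {μ : L} : μ ∈ eigs f ↔ f.maxGenEigenspace μ ≠ ⊥ := by
  simp [eigs]

/-- the dimension of the generalised eigenspace -/
noncomputable def mult (f : End L W) (μ : L) : ℕ := finrank L (f.maxGenEigenspace μ)

theorem trace_pow [IsAlgClosed L] (f : End L W) (j : ℕ) :
    LinearMap.trace L W (f ^ j) = ∑ μ ∈ eigs f, (mult f μ : L) * μ ^ j := by
  classical
  have hf : ⨆ μ, f.maxGenEigenspace μ = ⊤ := End.iSup_maxGenEigenspace_eq_top f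
  have hds := DirectSum.isInternal_submodule_of_iSupIndep_of_iSup_eq_top
      f.independent_maxGenEigenspace hf
  have hm : ∀ (j : ℕ) (μ : L), Set.MapsTo (f ^ j) (f.maxGenEigenspace μ) (f.maxGenEigenspace μ) :=
    fun j μ => f.mapsTo_maxGenEigenspace_of_comm (Commute.pow_right (Commute.refl f) j) μ
  rw [LinearMap.trace_eq_sum_trace_restrict' hds (finite_gen f) (hm j)]
  refine Finset.sum_congr rfl fun μ _ => ?_
  induction j with
  | zero =>
    have h1 : (f ^ 0).restrict (hm 0 μ) = 1 := by
      ext x; rfl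
    rw [h1, LinearMap.trace_one, pow_zero, mul_one, mult]
  | succ j ih =>
    have h2 : (f ^ (j + 1)).restrict (hm (j + 1) μ) =
        ((f ^ j).restrict (hm j μ)) ∘ₗ (f.restrict (f.mapsTo_maxGenEigenspace_of_comm rfl μ)) := by
      refine LinearMap.ext fun x => Subtype.ext ?_
      change (f ^ (j + 1)) (x : W) = (f ^ j) (f (x : W))
      rw [pow_succ]
      rfl
    have h3 : Commute ((f ^ j).restrict (hm j μ))
        (f.restrict (f.mapsTo_maxGenEigenspace_of_comm rfl μ)) := by
      refine LinearMap.restrict_commute ?_ _ _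
      exact (Commute.pow_right (Commute.refl f) j).symm
    rw [h2, LinearMap.trace_comp_eq_mul_of_commute_of_isNilpotent μ h3
      (f.isNilpotent_restrict_maxGenEigenspace_sub_algebraMap μ), ih, pow_succ]
    ring

theorem sum_mult [IsAlgClosed L] [CharZero L] (f : End L W) : ∑ μ ∈ eigs f, mult f μ = finrank L W := by
  have h := trace_pow f 0
  rw [pow_zero, LinearMap.trace_one] at h
  simp only [pow_zero, mul_one] at h
  exact_mod_cast h.symm

theorem one_le_mult {f : End L W} {μ : L} (h : μ ∈ eigs f) : 1 ≤ mult f μ := by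
  rw [mem_eigs] at h
  rw [mult, Nat.one_le_iff_ne_zero]
  intro h0
  exact h (Submodule.finrank_eq_zero.1 h0)

theorem card_eigs_le [IsAlgClosed L] [CharZero L] (f : End L W) : (eigs f).card ≤ finrank L W := by
  rw [← sum_mult f, Finset.card_eq_sum_ones]
  exact Finset.sum_le_sum fun μ hμ => one_le_mult hμ

end trace

end Pool.Agent.Helper73.KT
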