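import Pool.Agent.Helper73.KT.Ops

/-!
Weights of the tensor product of eigenspaces and a vector of maximal weight outside a stable subspace.
-/

set_option autoImplicit false

open Matrix H77MT Pool.Agent.Helper79.KN Pool.Agent.Helper33.KN

namespace Pool.Agent.Helper73.KT

section Diag

variable {X n K ι : Type} [DecidableEq X] [Fintype n] [DecidableEq n] [Field K] [Fintype ι] [DecidableEq ι]

omit [Fintype n] in
/-- The weight of the index tuple `s`. -/
def wt (i : ι → X × Bool) (s : ι → n) (x : X) (c : n) : ℤ :=
  ((Finset.univ.filter fun a => i a = (x, true) ∧ s a = c).card : ℤ) -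
    (Finset.univ.filter fun a => i a = (x, false) ∧ s a = c).card

omit [Fintype n] in
/-- the weight as a sum over the factors -/
theorem wt_eq (i : ι → X × Bool) (s : ι → n) (x : X) (c : n) :
    wt i s x c = ∑ a, if (i a).1 = x then (if (i a).2 then (if s a = c then 1 else 0) else (if s a = c then -1 else 0))
      else 0 := by
  unfold wt
  rw [Finset.card_filter, Finset.card_filter]
  push_cast
  rw [← Finset.sum_sub_distrib]
  refine Finset.sum_congr rfl fun a _ => ?_
  rcases h : i a with ⟨y, b⟩
  by_cases h1 : y = x
  · subst h1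
    cases b <;> by_cases h2 : s a = c <;> simp [h2]
  · cases b <;> simp [h1]

theorem lie_diag (i : ι → X × Bool) (x : X) (c : n) (M : (ι → n) → K) (s : ι → n) :
    lie i x c c M s = (wt i s x c : K) * M s := by
  rw [wt_eq]
  push_cast
  rw [Finset.sum_mul]
  show (∑ a, _) = _
  refine Finset.sum_congr rfl fun a _ => ?_
  have h0 : ∀ h : s a = c, Function.update s a c = s := fun h => by
    rw [← h, Function.update_eq_self]
  by_cases h1 : (i a).1 = x
  · by_cases h2 : (i a).2 = true
    · by_cases h3 : s a = c
      · simp only [h1, h2, h3, if_true, h0 h3, one_mul]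
      · simp only [h1, h2, h3, if_true, if_false, zero_mul]
    · by_cases h3 : s a = c
      · simp only [h1, h2, h3, if_true, if_false, h0 h3, neg_mul, one_mul, Bool.false_eq_true]
      · simp only [h1, h2, h3, if_true, if_false, zero_mul, Bool.false_eq_true]
  · simp only [h1, if_false, zero_mul]

omit [Fintype n] in
/-- the weight after the change of one index -/
theorem wt_update (i : ι → X × Bool) (s : ι → n) (a : ι) (d : n) (x : X) (e : n) :
    wt i (Function.update s a d) x e = wt i s x e +
      (if (i a).1 = x then (if (i a).2 then ((if d = e then 1 else 0) - (if s a = e then 1 else 0))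
        else ((if s a = e then 1 else 0) - (if d = e then 1 else 0))) else 0) := by
  rw [wt_eq, wt_eq, ← Finset.add_sum_erase _ _ (Finset.mem_univ a), ← Finset.add_sum_erase _ _ (Finset.mem_univ a)]
  have h1 : ∀ b ∈ Finset.univ.erase a, (if (i b).1 = x then (if (i b).2 then
      (if Function.update s a d b = e then (1 : ℤ) else 0) else (if Function.update s a d b = e then -1 else 0)) else 0) =
      if (i b).1 = x then (if (i b).2 then (if s b = e then 1 else 0) else (if s b = e then -1 else 0)) else 0 := by
    intro b hb
    rw [Function.update_of_ne (Finset.ne_of_mem_erase hb)]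
  rw [Finset.sum_congr rfl h1, Function.update_self]
  by_cases h2 : (i a).1 = x
  · by_cases h3 : (i a).2 = true
    · simp only [h2, h3, if_true]
      ring
    · simp only [h2, h3, if_true, if_false, Bool.false_eq_true]
      split_ifs <;> ring
  · simp only [h2, if_false]
    ring

omit [Fintype n] in
theorem wt_le (i : ι → X × Bool) (s : ι → n) (x : X) (c : n) : |wt i s x c| ≤ Fintype.card ι := by
  unfold wt
  have h1 : ((Finset.univ.filter fun a => i a = (x, true) ∧ s a = c).card : ℤ) ≤ Fintype.card ι := by
    exact_mod_cast Finset.card_le_univ _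
  have h2 : ((Finset.univ.filter fun a => i a = (x, false) ∧ s a = c).card : ℤ) ≤ Fintype.card ι := by
    exact_mod_cast Finset.card_le_univ _
  rw [abs_le]
  constructor <;> omega

/-- the weights of `lie i x c d M` -/
theorem wt_lie {i : ι → X × Bool} {x : X} {c d : n} {M : (ι → n) → K} {ω : X → n → ℤ}
    (hM : ∀ s, M s ≠ 0 → wt i s = ω) {s : ι → n} (hs : lie i x c d M s ≠ 0) :
    wt i s = fun y e => ω y e + (if y = x then ((if c = e then 1 else 0) - (if d = e then 1 else 0)) else 0) := by
  have h1 : ∃ a, (if (i a).1 = x then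
    (if (i a).2 then (if s a = c then M (Function.update s a d) else 0)
      else (if s a = d then -M (Function.update s a c) else 0)) else 0) ≠ 0 := by
    by_contra hc
    push Not at hc
    exact hs (Finset.sum_eq_zero fun a _ => hc a)
  obtain ⟨a, ha⟩ := h1
  by_cases h2 : (i a).1 = x
  · rw [if_pos h2] at ha
    by_cases h3 : (i a).2 = true
    · rw [if_pos h3] at ha
      by_cases h4 : s a = c
      · rw [if_pos h4] at ha
        have h5 := hM _ ha
        funext y e
        have h6 := congrFun (congrFun h5 y) e
        rw [wt_update] at h6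
        rw [← h6, h4]
        by_cases h7 : (i a).1 = y
        · have h8 : y = x := by rw [← h7, h2]
          rw [if_pos h7, if_pos h3, if_pos h8]
          ring
        · rw [if_neg h7, if_neg (fun h => h7 (by rw [h2, h]))]
          ring
      · rw [if_neg h4] at ha
        exact absurd rfl ha
    · rw [if_neg h3] at ha
      by_cases h4 : s a = d
      · rw [if_pos h4] at ha
        have h5 := hM _ (neg_ne_zero.1 ha)
        funext y e
        have h6 := congrFun (congrFun h5 y) e
        rw [wt_update] at h6
        rw [← h6, h4]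
        by_cases h7 : (i a).1 = y
        · have h8 : y = x := by rw [← h7, h2]
          rw [if_pos h7, if_neg h3, if_pos h8]
          ring
        · rw [if_neg h7, if_neg (fun h => h7 (by rw [h2, h]))]
          ring
      · rw [if_neg h4] at ha
        exact absurd rfl ha
  · rw [if_neg h2] at ha
    exact absurd rfl ha

end Diag

section Comp

variable {X n K ι : Type} [DecidableEq X] [Fintype n] [DecidableEq n] [Field K] [CharZero K] [Fintype ι]
  [DecidableEq ι]

omit [CharZero K] in
/-- level sets of a diagonal operator -/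
theorem level_mem {J : Type} [Fintype J] {R : Submodule K (J → K)} {g : J → K} (hR : ∀ M ∈ R, g * M ∈ R) (v : K)
    {M : J → K} (hM : M ∈ R) [DecidableEq K] : (fun s => if g s = v then M s else 0) ∈ R := by
  classical
  have h1 : ∀ F : Finset K, (fun s => (∏ w ∈ F, (g s - w)) * M s) ∈ R := by
    intro F
    induction F using Finset.induction_on with
    | empty => simpa using hM
    | insert w F hw ih =>
      have h2 := R.sub_mem (hR _ ih) (R.smul_mem w ih)
      convert h2 using 1
      funext s
      rw [Finset.prod_insert hw, Pi.sub_apply, Pi.mul_apply, Pi.smul_apply, smul_eq_mul]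
      ring
  have h2 := h1 ((Finset.univ.image g).erase v)
  have h3 : (∏ w ∈ (Finset.univ.image g).erase v, (v - w)) ≠ 0 := by
    rw [Finset.prod_ne_zero_iff]
    intro w hw
    exact sub_ne_zero.2 (Finset.ne_of_mem_erase hw).symm
  have h4 := R.smul_mem (∏ w ∈ (Finset.univ.image g).erase v, (v - w))⁻¹ h2
  convert h4 using 1
  funext s
  rw [Pi.smul_apply, smul_eq_mul]
  by_cases h5 : g s = v
  · rw [if_pos h5, h5, ← mul_assoc, inv_mul_cancel₀ h3, one_mul]
  · rw [if_neg h5]
    have h6 : (∏ w ∈ (Finset.univ.image g).erase v, (g s - w)) = 0 := by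
      apply Finset.prod_eq_zero (i := g s)
      · exact Finset.mem_erase.2 ⟨h5, Finset.mem_image_of_mem _ (Finset.mem_univ _)⟩
      · exact sub_self _
    rw [h6, zero_mul, mul_zero]

/-- weight components -/
theorem comp_mem [Fintype X] {i : ι → X × Bool} {R : Submodule K ((ι → n) → K)}
    (hR : ∀ x c, ∀ M ∈ R, lie i x c c M ∈ R) (ω : X → n → ℤ) {M : (ι → n) → K} (hM : M ∈ R) :
    (fun s => if wt i s = ω then M s else 0) ∈ R := by
  classical
  have h1 : ∀ F : Finset (X × n), (fun s => if ∀ p ∈ F, wt i s p.1 p.2 = ω p.1 p.2 then M s else 0) ∈ R := by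
    intro F
    induction F using Finset.induction_on with
    | empty => simpa using hM
    | insert p F hp ih =>
      have h2 : ∀ M ∈ R, (fun s => (wt i s p.1 p.2 : K)) * M ∈ R := by
        intro M hM
        convert hR p.1 p.2 M hM using 1
        funext s
        rw [lie_diag, Pi.mul_apply]
      have h3 := level_mem h2 (ω p.1 p.2 : K) ih
      convert h3 using 1
      funext s
      by_cases h4 : wt i s p.1 p.2 = ω p.1 p.2
      · rw [if_pos (by exact_mod_cast h4 : ((wt i s p.1 p.2 : ℤ) : K) = (ω p.1 p.2 : K))]
        by_cases h5 : ∀ q ∈ F, wt i s q.1 q.2 = ω q.1 q.2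
        · rw [if_pos h5, if_pos]
          intro q hq
          rcases Finset.mem_insert.1 hq with rfl | hq
          · exact h4
          · exact h5 q hq
        · rw [if_neg h5, if_neg]
          intro h6
          exact h5 fun q hq => h6 q (Finset.mem_insert_of_mem hq)
      · have h7 : ¬ ((wt i s p.1 p.2 : ℤ) : K) = (ω p.1 p.2 : K) := fun h => h4 (by exact_mod_cast h)
        rw [if_neg h7, if_neg]
        intro h6
        exact h4 (h6 p (Finset.mem_insert_self _ _))
  have h2 := h1 Finset.univ
  convert h2 using 1
  funext s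
  by_cases h3 : wt i s = ω
  · rw [if_pos h3, if_pos]
    intro p _
    rw [h3]
  · rw [if_neg h3, if_neg]
    intro h4
    apply h3
    funext x c
    exact h4 (x, c) (Finset.mem_univ _)

/-- a weight vector outside of `S` -/
theorem exists_comp [Fintype X] {i : ι → X × Bool} {R S : Submodule K ((ι → n) → K)}
    (hR : ∀ x c, ∀ M ∈ R, lie i x c c M ∈ R) (hRS : ¬ R ≤ S) :
    ∃ t : ι → n, ∃ M ∈ R, M ∉ S ∧ ∀ s, M s ≠ 0 → wt i s = wt i t := by
  classical
  obtain ⟨M, hM, hMS⟩ := SetLike.not_le_iff_exists.1 hRS
  by_contra hc
  push Not at hc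
  have h1 : ∀ ω : X → n → ℤ, (fun s => if wt i s = ω then M s else 0) ∈ S := by
    intro ω
    by_contra h2
    by_cases h3 : ∃ t, wt i t = ω
    · obtain ⟨t, rfl⟩ := h3
      obtain ⟨s, h4, h5⟩ := hc t _ (comp_mem hR (wt i t) hM) h2
      apply h4
      show (if wt i s = wt i t then M s else 0) = 0
      rw [if_neg h5]
    · apply h2
      have h4 : (fun s => if wt i s = ω then M s else 0) = 0 := by
        funext s
        rw [if_neg (fun h => h3 ⟨s, h⟩)]
        rfl
      rw [h4]
      exact S.zero_mem
  apply hMS
  have h2 : M = ∑ ω ∈ Finset.univ.image (fun s => wt i s), fun s => if wt i s = ω then M s else 0 := by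
    funext s
    rw [Finset.sum_apply, Finset.sum_ite_eq, if_pos (Finset.mem_image_of_mem _ (Finset.mem_univ s))]
  rw [h2]
  exact S.sum_mem fun ω _ => h1 ω

end Comp

section Top

variable {X K ι : Type} [Fintype X] [DecidableEq X] [Field K] [CharZero K] [Fintype ι] [DecidableEq ι]

/-- the height of a weight -/
def height {N : ℕ} (ω : X → Fin N → ℤ) : ℤ := ∑ x, ∑ c : Fin N, (-(c.val : ℤ)) * ω x c

omit [DecidableEq X] in
theorem height_add {N : ℕ} [DecidableEq X] (ω : X → Fin N → ℤ) (x : X) (c d : Fin N) :
    height (fun y e => ω y e + (if y = x then ((if c = e then 1 else 0) - (if d = e then 1 else 0)) else 0)) =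
      height ω + ((d.val : ℤ) - c.val) := by
  unfold height
  have h1 : ∀ y : X, ∑ e : Fin N, (-(e.val : ℤ)) * (ω y e + (if y = x then ((if c = e then 1 else 0) -
      (if d = e then 1 else 0)) else 0)) = ∑ e : Fin N, (-(e.val : ℤ)) * ω y e +
      if y = x then ((d.val : ℤ) - c.val) else 0 := by
    intro y
    by_cases h : y = x
    · simp only [h, if_true, mul_add, mul_sub, Finset.sum_add_distrib, Finset.sum_sub_distrib, mul_ite, mul_one,
        mul_zero, Finset.sum_ite_eq, Finset.mem_univ]
      ring
    · simp only [h, if_false, add_zero]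
  simp only [h1, Finset.sum_add_distrib, Finset.sum_ite_eq', Finset.mem_univ, if_true]

/-- **A vector of maximal weight.** -/
theorem exists_top {N : ℕ} (hcomm : ∀ (i : ι → X × Bool) (x : X) (c d : Fin N) (M : (ι → Fin N) → K),
      lie i x c d (lie i x d c M) - lie i x d c (lie i x c d M) = lie i x c c M - lie i x d d M)
    (i : ι → X × Bool) {R S : Submodule K ((ι → Fin N) → K)}
    (hR : ∀ x c d, ∀ M ∈ R, lie i x c d M ∈ R) (hS : ∀ x c d, ∀ M ∈ S, lie i x c d M ∈ S) (hRS : ¬ R ≤ S) :
    ∃ M ∈ R, M ∉ S ∧ ∃ ω : X → Fin N → ℤ, (∀ s, M s ≠ 0 → wt i s = ω) ∧ (∀ x c d, c < d → lie i x c d M ∈ S) ∧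
      ∀ x c d, c < d → ω x d ≤ ω x c := by
  classical
  set G : Finset (ι → Fin N) := Finset.univ.filter fun t => ∃ M ∈ R, M ∉ S ∧ ∀ s, M s ≠ 0 → wt i s = wt i t with hG
  have hGne : G.Nonempty := by
    obtain ⟨t, ht⟩ := exists_comp (fun x c M hM => hR x c c M hM) hRS
    exact ⟨t, Finset.mem_filter.2 ⟨Finset.mem_univ _, ht⟩⟩
  obtain ⟨t, ht, hmax⟩ := G.exists_max_image (fun t => height (wt i t)) hGne
  obtain ⟨-, M, hM, hMS, hMt⟩ := Finset.mem_filter.1 ht
  have htop : ∀ x c d, c < d → lie i x c d M ∈ S := by
    intro x c d hcd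
    by_contra h1
    have h2 : ∃ s, lie i x c d M s ≠ 0 := by
      by_contra h3
      push Not at h3
      apply h1
      have : lie i x c d M = 0 := funext h3
      rw [this]
      exact S.zero_mem
    obtain ⟨s, hs⟩ := h2
    have h3 := wt_lie hMt hs
    have h4 : s ∈ G := Finset.mem_filter.2 ⟨Finset.mem_univ _, _, hR x c d M hM, h1, fun s' hs' => by
      rw [h3, wt_lie hMt hs']⟩
    have h5 := hmax s h4
    rw [h3, height_add] at h5
    have h6 : (c.val : ℤ) < d.val := by exact_mod_cast hcd
    omega
  refine ⟨M, hM, hMS, wt i t, hMt, htop, ?_⟩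
  intro x c d hcd
  by_contra hlt
  push Not at hlt
  have hne : c ≠ d := hcd.ne
  -- the powers of the lowering operator
  set F : ℕ → ((ι → Fin N) → K) := fun j => (fun Q => lie i x d c Q)^[j] M with hF
  have hF1 : ∀ j, F (j + 1) = lie i x d c (F j) := fun j => Function.iterate_succ_apply' _ _ _
  have hw : ∀ j s, F j s ≠ 0 → wt i s x c = wt i t x c - j ∧ wt i s x d = wt i t x d + j := by
    intro j
    induction j with
    | zero =>
      intro s hs
      rw [hMt s hs]
      simp
    | succ j ih =>
      intro s hs
      rw [hF1] at hs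
      -- some factor
      have h1 : ∃ a, (if (i a).1 = x then
        (if (i a).2 then (if s a = d then F j (Function.update s a c) else 0)
          else (if s a = c then -F j (Function.update s a d) else 0)) else 0) ≠ 0 := by
        by_contra hc'
        push Not at hc'
        exact hs (Finset.sum_eq_zero fun a _ => hc' a)
      obtain ⟨a, ha⟩ := h1
      by_cases h2 : (i a).1 = x
      · rw [if_pos h2] at ha
        by_cases h3 : (i a).2 = true
        · rw [if_pos h3] at ha
          by_cases h4 : s a = d
          · rw [if_pos h4] at ha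
            obtain ⟨h5, h6⟩ := ih _ ha
            rw [wt_update, if_pos h2, if_pos h3, h4] at h5 h6
            rw [if_pos rfl, if_neg hne.symm] at h5
            rw [if_neg hne, if_pos rfl] at h6
            push_cast
            constructor <;> omega
          · rw [if_neg h4] at ha
            exact absurd rfl ha
        · rw [if_neg h3] at ha
          by_cases h4 : s a = c
          · rw [if_pos h4] at ha
            obtain ⟨h5, h6⟩ := ih _ (neg_ne_zero.1 ha)
            rw [wt_update, if_pos h2, if_neg h3, h4] at h5 h6
            rw [if_pos rfl, if_neg hne.symm] at h5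
            rw [if_neg hne, if_pos rfl] at h6
            push_cast
            constructor <;> omega
          · rw [if_neg h4] at ha
            exact absurd rfl ha
      · rw [if_neg h2] at ha
        exact absurd rfl ha
  set h : ℤ := wt i t x c - wt i t x d with hh
  have hH : ∀ j, lie i x c c (F j) - lie i x d d (F j) = ((h - 2 * j : ℤ) : K) • F j := by
    intro j
    funext s
    rw [Pi.sub_apply, lie_diag, lie_diag, Pi.smul_apply, smul_eq_mul]
    by_cases hs : F j s = 0
    · rw [hs]; ring
    · obtain ⟨h1, h2⟩ := hw j s hs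
      rw [h1, h2]
      push_cast [hh]
      ring
  have hEF : ∀ j : ℕ, lie i x c d (F (j + 1)) - (((j + 1 : ℕ) * (h - j) : ℤ) : K) • F j ∈ S := by
    intro j
    induction j with
    | zero =>
      have h1 := hcomm i x c d (F 0)
      rw [hH 0, ← hF1] at h1
      have h2 : lie i x d c (lie i x c d (F 0)) ∈ S := hS _ _ _ _ (htop x c d hcd)
      have h3 : lie i x c d (F (0 + 1)) - (((0 + 1 : ℕ) * (h - (0 : ℕ)) : ℤ) : K) • F 0 =
          lie i x d c (lie i x c d (F 0)) := by
        rw [sub_eq_iff_eq_add] at h1
        rw [h1]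
        push_cast
        simp
      rw [h3]
      exact h2
    | succ j ih =>
      have h1 := hcomm i x c d (F (j + 1))
      rw [hH (j + 1), ← hF1] at h1
      have h2 := hS x d c _ ih
      rw [map_sub, map_smul, ← hF1] at h2
      have h3 : lie i x c d (F (j + 1 + 1)) - (((j + 1 + 1 : ℕ) * (h - (j + 1 : ℕ)) : ℤ) : K) • F (j + 1) =
          lie i x d c (lie i x c d (F (j + 1))) - (((j + 1 : ℕ) * (h - j) : ℤ) : K) • F (j + 1) := by
        rw [sub_eq_iff_eq_add] at h1
        rw [h1]
        funext s
        simp only [Pi.sub_apply, Pi.add_apply, Pi.smul_apply, smul_eq_mul]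
        push_cast
        ring
      rw [h3]
      exact h2
  have hnot : ∀ j, F j ∉ S := by
    intro j
    induction j with
    | zero => exact hMS
    | succ j ih =>
      intro h1
      apply ih
      have h2 := S.sub_mem (hS x c d _ h1) (hEF j)
      rw [sub_sub_cancel] at h2
      refine (S.smul_mem_iff ?_).1 h2
      have h3 : ((j + 1 : ℕ) : ℤ) * (h - j) ≠ 0 := by
        apply mul_ne_zero
        · positivity
        · have : h < 0 := by omega
          omega
      exact_mod_cast h3
  -- too many powers
  have hbig : F (2 * Fintype.card ι + 1) = 0 := by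
    funext s
    by_contra hs
    obtain ⟨h1, -⟩ := hw _ s hs
    have h2 := wt_le i s x c
    have h3 := wt_le i t x c
    rw [abs_le] at h2 h3
    push_cast at h1
    omega
  apply hnot (2 * Fintype.card ι + 1)
  rw [hbig]
  exact S.zero_mem

end Top

end Pool.Agent.Helper73.KT
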