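import Pool.Agent.Helper73.KT.Defs

/-!
`IsMeet` for at most two factors.
-/

set_option autoImplicit false

open Matrix H77MT Pool.Agent.Helper79.KN Pool.Agent.Helper33.KN

namespace Pool.Agent.Helper73.KT

/-- `IsMeet` for at most two factors. -/
theorem isMeet_two {X T ι : Type} [Fintype ι] [DecidableEq X] [Nonempty T] {h : T → X → ℤ → ℕ} {m : ℕ}
    (hh : Helper33.KN.IsMeet h m) (hι : Fintype.card ι ≤ 2) : IsMeet ι h m := by
  classical
  intro i
  have hcard : ∀ l : X × Bool, (Finset.univ.filter fun a => i a = l).card ≤ 2 := fun l =>
    (Finset.card_le_univ _).trans hι
  by_cases hc : ∃ a b : ι, i a ≠ i b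
  · obtain ⟨a, b, hab⟩ := hc
    obtain ⟨t, h1, h2⟩ := hh.two _ _ hab
    refine ⟨t, fun l => ?_⟩
    have huniv : ∀ e : ι, e = a ∨ e = b := by
      intro e
      by_contra he
      push Not at he
      have h3 : ({e, a, b} : Finset ι).card = 3 := by
        rw [Finset.card_insert_of_notMem, Finset.card_insert_of_notMem, Finset.card_singleton]
        · simp only [Finset.mem_singleton]
          rintro rfl
          exact hab rfl
        · simp only [Finset.mem_insert, Finset.mem_singleton, not_or]
          exact he
      have h4 := Finset.card_le_univ ({e, a, b} : Finset ι)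
      omega
    by_cases hla : i a = l
    · have h3 : (Finset.univ.filter fun e => i e = l) ⊆ {a} := by
        intro e he
        rcases huniv e with rfl | rfl
        · exact Finset.mem_singleton_self _
        · exact absurd (hla.trans (Finset.mem_filter.1 he).2.symm) hab
      have h4 := Finset.card_le_card h3
      rw [Finset.card_singleton] at h4
      rw [← hla] at h4 ⊢
      omega
    · by_cases hlb : i b = l
      · have h3 : (Finset.univ.filter fun e => i e = l) ⊆ {b} := by
          intro e he
          rcases huniv e with rfl | rfl
          · exact absurd (Finset.mem_filter.1 he).2 hla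
          · exact Finset.mem_singleton_self _
        have h4 := Finset.card_le_card h3
        rw [Finset.card_singleton] at h4
        rw [← hlb] at h4 ⊢
        omega
      · have h3 : (Finset.univ.filter fun e => i e = l) = ∅ := by
          rw [Finset.filter_eq_empty_iff]
          intro e _
          rcases huniv e with rfl | rfl
          · exact hla
          · exact hlb
        rw [h3, Finset.card_empty]
        exact Nat.zero_le _
  · push Not at hc
    by_cases hne : Nonempty ι
    · obtain ⟨a⟩ := hne
      obtain ⟨t, ht⟩ := hh.one (i a)
      refine ⟨t, fun l => ?_⟩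
      by_cases hl : i a = l
      · rw [← hl]
        exact (hcard _).trans ht
      · have h3 : (Finset.univ.filter fun e => i e = l) = ∅ := by
          rw [Finset.filter_eq_empty_iff]
          intro e _ he
          exact hl ((hc a e).trans he)
        rw [h3, Finset.card_empty]
        exact Nat.zero_le _
    · refine ⟨Classical.arbitrary T, fun l => ?_⟩
      have h3 : (Finset.univ.filter fun e => i e = l) = ∅ := by
        rw [Finset.filter_eq_empty_iff]
        intro e _ _
        exact hne ⟨e⟩
      rw [h3, Finset.card_empty]
      exact Nat.zero_le _

end Pool.Agent.Helper73.KT
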